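import Pool.Agent.R811.Cross.Main

set_option autoImplicit false

/-! Reduced shadows without antiparallel bigons have many disjoint pairs of interlaced double points. -/

namespace Pool.Agent.R811.Cross

open Finset

namespace Shadow

variable {n : ℕ} (G : Shadow n)

/-- the double points `i` and `j` are joined by an edge from `i` to `j` and an edge from `j` to `i` on the
other strands -/
def Antiparallel (i j : Fin n) : Prop :=
  ∃ x x' y y' : Fin (2 * n), ((x = G.p i ∧ x' = G.q i) ∨ (x = G.q i ∧ x' = G.p i)) ∧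
    ((y = G.p j ∧ y' = G.q j) ∨ (y = G.q j ∧ y' = G.p j)) ∧ y = next x ∧ x' = next y'

end Shadow

variable {n : ℕ} (G : Shadow n)

/-- the first passage -/
def pa (r : Fin n) : ℕ := min (G.p r : ℕ) (G.q r)
/-- the second passage -/
def pb (r : Fin n) : ℕ := max (G.p r : ℕ) (G.q r)

theorem pa_lt_pb (r : Fin n) : pa G r < pb G r := by
  have h : (G.p r : ℕ) ≠ G.q r := fun h => pq_ne G r r (Fin.ext h)
  unfold pa pb
  omega

theorem pb_lt (r : Fin n) : pb G r < 2 * n := by
  unfold pb
  have := (G.p r).2
  have := (G.q r).2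
  omega

theorem cases_pab (r : Fin n) : (pa G r = G.p r ∧ pb G r = G.q r) ∨ (pa G r = G.q r ∧ pb G r = G.p r) := by
  unfold pa pb
  omega

theorem pa_inj {r r' : Fin n} (h : r ≠ r') : pa G r ≠ pa G r' ∧ pb G r ≠ pb G r' ∧ pa G r ≠ pb G r' ∧
    pb G r ≠ pa G r' := by
  have h1 : (G.p r : ℕ) ≠ G.p r' := fun e => p_ne G h (Fin.ext e)
  have h2 : (G.q r : ℕ) ≠ G.q r' := fun e => q_ne G h (Fin.ext e)
  have h3 : (G.p r : ℕ) ≠ G.q r' := fun e => pq_ne G r r' (Fin.ext e)
  have h4 : (G.p r' : ℕ) ≠ G.q r := fun e => pq_ne G r' r (Fin.ext e)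
  rcases cases_pab G r with ⟨a, b⟩ | ⟨a, b⟩ <;> rcases cases_pab G r' with ⟨c, d⟩ | ⟨c, d⟩ <;>
    rw [a, b, c, d] <;> omega

theorem owner (z : ℕ) (hz : z < 2 * n) : ∃ c, z = pa G c ∨ z = pb G c := by
  obtain ⟨w, hw⟩ := G.bij.2 ⟨z, hz⟩
  rcases w with k | k
  · have h : G.p k = ⟨z, hz⟩ := hw
    have h' : (G.p k : ℕ) = z := by rw [h]
    rcases cases_pab G k with ⟨a, b⟩ | ⟨a, b⟩
    · exact ⟨k, Or.inl (by rw [a, h'])⟩
    · exact ⟨k, Or.inr (by rw [b, h'])⟩
  · have h : G.q k = ⟨z, hz⟩ := hw
    have h' : (G.q k : ℕ) = z := by rw [h]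
    rcases cases_pab G k with ⟨a, b⟩ | ⟨a, b⟩
    · exact ⟨k, Or.inr (by rw [b, h'])⟩
    · exact ⟨k, Or.inl (by rw [a, h'])⟩

theorem int_iff (r r' : Fin n) : G.Interlaced r r' ↔
    ¬ ((pa G r < pa G r' ∧ pa G r' < pb G r) ↔ (pa G r < pb G r' ∧ pb G r' < pb G r)) := by
  have e : ∀ x, Shadow.Between (G.p r) (G.q r) x ↔ (pa G r < x ∧ x < pb G r) := fun x => Iff.rfl
  unfold Shadow.Interlaced
  rw [e, e]
  rcases cases_pab G r' with ⟨c, d⟩ | ⟨c, d⟩ <;> rw [c, d]
  rw [not_iff_not]
  exact Iff.comm

section S

variable (S : Finset (Fin n))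

/-- the number of the passages through double points in `S` before `z` -/
def cnt (z : ℕ) : ℕ := (S.filter (fun k => pa G k < z)).card + (S.filter (fun k => pb G k < z)).card

theorem cnt_mono {z z' : ℕ} (h : z ≤ z') : cnt G S z ≤ cnt G S z' := by
  unfold cnt
  apply Nat.add_le_add <;> apply Finset.card_le_card <;> intro k hk <;> rw [Finset.mem_filter] at hk ⊢ <;>
    exact ⟨hk.1, by omega⟩

theorem cnt_lt {z z' : ℕ} {s : Fin n} (hs : s ∈ S) (h : (z ≤ pa G s ∧ pa G s < z') ∨
    (z ≤ pb G s ∧ pb G s < z')) : cnt G S z < cnt G S z' := by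
  unfold cnt
  rcases h with h | h
  · apply Nat.add_lt_add_of_lt_of_le
    · apply Finset.card_lt_card
      rw [Finset.ssubset_iff_of_subset]
      · exact ⟨s, by rw [Finset.mem_filter]; exact ⟨hs, h.2⟩, by rw [Finset.mem_filter]; omega⟩
      · intro k hk; rw [Finset.mem_filter] at hk ⊢; exact ⟨hk.1, by omega⟩
    · apply Finset.card_le_card; intro k hk; rw [Finset.mem_filter] at hk ⊢; exact ⟨hk.1, by omega⟩
  · apply Nat.add_lt_add_of_le_of_lt
    · apply Finset.card_le_card; intro k hk; rw [Finset.mem_filter] at hk ⊢; exact ⟨hk.1, by omega⟩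
    · apply Finset.card_lt_card
      rw [Finset.ssubset_iff_of_subset]
      · exact ⟨s, by rw [Finset.mem_filter]; exact ⟨hs, h.2⟩, by rw [Finset.mem_filter]; omega⟩
      · intro k hk; rw [Finset.mem_filter] at hk ⊢; exact ⟨hk.1, by omega⟩

theorem cnt_le (z : ℕ) : cnt G S z ≤ 2 * S.card := by
  unfold cnt
  have h1 := Finset.card_filter_le S (fun k => pa G k < z)
  have h2 := Finset.card_filter_le S (fun k => pb G k < z)
  omega

variable (hind : ∀ r r', r ∉ S → r' ∉ S → ¬ G.Interlaced r r') (hred : ∀ i, ∃ j, G.Interlaced i j)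
  (hbig : ∀ i j, i ≠ j → ¬ G.Antiparallel i j)

include hind hred in
theorem sep {r : Fin n} (hr : r ∉ S) : cnt G S (pa G r + 1) < cnt G S (pb G r) := by
  obtain ⟨s, hs⟩ := hred r
  have hsS : s ∈ S := by
    by_contra h
    exact hind r s hr h hs
  rw [int_iff] at hs
  apply cnt_lt G S hsS
  by_cases h1 : pa G r < pa G s ∧ pa G s < pb G r
  · left; omega
  · by_cases h2 : pa G r < pb G s ∧ pb G s < pb G r
    · right; omega
    · exact absurd (iff_of_false h1 h2) hs

include hind hred in
theorem nested {r r' : Fin n} (hr : r ∉ S) (hr' : r' ∉ S) (hlt : pa G r < pa G r')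
    (h1 : cnt G S (pa G r) = cnt G S (pa G r')) : pb G r' < pb G r := by
  have hne : r ≠ r' := by rintro rfl; exact lt_irrefl _ hlt
  have hd := pa_inj G hne
  have hn := hind r r' hr hr'
  rw [int_iff, not_not] at hn
  have hs := sep G S hind hred hr
  have hm := cnt_mono G S (Nat.le_succ (pa G r))
  by_cases h : pa G r' < pb G r
  · exact (hn.1 ⟨hlt, h⟩).2
  · exfalso
    have := cnt_mono G S (show pb G r ≤ pa G r' by omega)
    have : cnt G S (pa G r) ≤ cnt G S (pa G r + 1) := hm
    omega

include hind hred hbig in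
theorem core {r r' : Fin n} (hr : r ∉ S) (hr' : r' ∉ S) (ha : pa G r' = pa G r + 1)
    (h1 : cnt G S (pa G r) = cnt G S (pa G r')) (h2 : cnt G S (pb G r) = cnt G S (pb G r')) : False := by
  have hne : r ≠ r' := by rintro rfl; omega
  have hd := pa_inj G hne
  have hb := nested G S hind hred hr hr' (by omega) h1
  have ab := pa_lt_pb G r
  have ab' := pa_lt_pb G r'
  have hlt := pb_lt G r
  rcases Nat.lt_or_ge (pb G r' + 1) (pb G r) with h | h
  · obtain ⟨c, hc⟩ := owner G (pb G r' + 1) (by omega)
    have hcr : c ≠ r := by rintro rfl; omega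
    have hcr' : c ≠ r' := by rintro rfl; omega
    have hcS : c ∉ S := by
      intro hcS
      have := cnt_lt G S (z := pb G r') (z' := pb G r) hcS (by omega)
      omega
    have d1 := pa_inj G hcr
    have d2 := pa_inj G hcr'
    have abc := pa_lt_pb G c
    have n1 := hind r c hr hcS
    rw [int_iff, not_not] at n1
    have n2 := hind r' c hr' hcS
    rw [int_iff, not_not] at n2
    rcases hc with hc | hc
    · have h3 := n1.1 ⟨by omega, by omega⟩
      have h4 := sep G S hind hred hcS
      have h5 := cnt_mono G S (show pb G r' ≤ pa G c + 1 by omega)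
      have h6 := cnt_mono G S (show pb G c ≤ pb G r by omega)
      omega
    · have h3 := n1.2 ⟨by omega, by omega⟩
      have h4 : ¬ (pa G r' < pa G c ∧ pa G c < pb G r') := fun h => by
        have := (n2.1 h).2
        omega
      omega
  · have hb' : pb G r = pb G r' + 1 := by omega
    apply hbig r r' hne
    have hN : ∀ (e f : Fin (2 * n)), (f : ℕ) = e + 1 → f = next e := by
      intro e f hef
      apply Fin.ext
      rcases next_val e with ⟨_, hn⟩ | ⟨he, _⟩
      · rw [hn, hef]
      · have := f.2; omega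
    rcases cases_pab G r with ⟨e1, e2⟩ | ⟨e1, e2⟩ <;> rcases cases_pab G r' with ⟨e3, e4⟩ | ⟨e3, e4⟩
    · exact ⟨G.p r, G.q r, G.p r', G.q r', Or.inl ⟨rfl, rfl⟩, Or.inl ⟨rfl, rfl⟩,
        hN _ _ (by omega), hN _ _ (by omega)⟩
    · exact ⟨G.p r, G.q r, G.q r', G.p r', Or.inl ⟨rfl, rfl⟩, Or.inr ⟨rfl, rfl⟩,
        hN _ _ (by omega), hN _ _ (by omega)⟩
    · exact ⟨G.q r, G.p r, G.p r', G.q r', Or.inr ⟨rfl, rfl⟩, Or.inl ⟨rfl, rfl⟩,
        hN _ _ (by omega), hN _ _ (by omega)⟩
    · exact ⟨G.q r, G.p r, G.q r', G.p r', Or.inr ⟨rfl, rfl⟩, Or.inr ⟨rfl, rfl⟩,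
        hN _ _ (by omega), hN _ _ (by omega)⟩

include hind hred hbig in
theorem type_lt {r r' : Fin n} (hr : r ∉ S) (hr' : r' ∉ S) (hlt : pa G r < pa G r')
    (h1 : cnt G S (pa G r) = cnt G S (pa G r')) (h2 : cnt G S (pb G r) = cnt G S (pb G r')) : False := by
  rcases Nat.lt_or_ge (pa G r + 1) (pa G r') with h | h
  · have hne : r ≠ r' := by rintro rfl; omega
    have hd := pa_inj G hne
    have hb := nested G S hind hred hr hr' hlt h1
    have ab := pa_lt_pb G r
    have ab' := pa_lt_pb G r'
    have hlt2 := pb_lt G r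
    obtain ⟨c, hc⟩ := owner G (pa G r + 1) (by omega)
    have hcr : c ≠ r := by rintro rfl; omega
    have hcr' : c ≠ r' := by rintro rfl; omega
    have hcS : c ∉ S := by
      intro hcS
      have := cnt_lt G S (z := pa G r) (z' := pa G r') hcS (by omega)
      omega
    have d1 := pa_inj G hcr
    have d2 := pa_inj G hcr'
    have abc := pa_lt_pb G c
    have n1 := hind r c hr hcS
    rw [int_iff, not_not] at n1
    have n2 := hind c r' hcS hr'
    rw [int_iff, not_not] at n2
    have n3 := hind c r hcS hr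
    rw [int_iff, not_not] at n3
    rcases hc with hc | hc
    · have h3 := n1.1 ⟨by omega, by omega⟩
      rcases Nat.lt_or_ge (pb G c) (pa G r') with h4 | h4
      · have h5 := sep G S hind hred hcS
        have h6 := cnt_mono G S (show pa G r ≤ pa G c + 1 by omega)
        have h7 := cnt_mono G S (show pb G c ≤ pa G r' by omega)
        omega
      · have h5 := n2.1 ⟨by omega, by omega⟩
        have h6 := cnt_mono G S (show pa G r ≤ pa G c by omega)
        have h7 := cnt_mono G S (show pa G c ≤ pa G r' by omega)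
        have h8 := cnt_mono G S (show pb G r' ≤ pb G c by omega)
        have h9 := cnt_mono G S (show pb G c ≤ pb G r by omega)
        exact core G S hind hred hbig hr hcS (by omega) (by omega) (by omega)
    · have h3 := n3.1 ⟨by omega, by omega⟩
      omega
  · exact core G S hind hred hbig hr hr' (by omega) h1 h2

include hind hred hbig in
theorem type_inj {r r' : Fin n} (hr : r ∉ S) (hr' : r' ∉ S)
    (h1 : cnt G S (pa G r) = cnt G S (pa G r')) (h2 : cnt G S (pb G r) = cnt G S (pb G r')) : r = r' := by
  by_contra hne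
  have hd := pa_inj G hne
  rcases Nat.lt_or_ge (pa G r) (pa G r') with h | h
  · exact type_lt G S hind hred hbig hr hr' h h1 h2
  · exact type_lt G S hind hred hbig hr' hr (by omega) h1.symm h2.symm

include hind hred hbig in
theorem bound : n ≤ 5 * S.card := by
  classical
  set L : Fin n → Prop := fun r => ∀ r', r' ∉ S → cnt G S (pa G r') = cnt G S (pa G r) →
    cnt G S (pb G r') ≤ cnt G S (pb G r) with hL
  set f : Fin n → ℕ := fun r => if L r then cnt G S (pa G r) else 2 * S.card + (cnt G S (pb G r) - 1) with hf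
  have lt1 : ∀ r, r ∉ S → cnt G S (pa G r) < cnt G S (pb G r) := by
    intro r hr
    have h1 := sep G S hind hred hr
    have h2 := cnt_mono G S (Nat.le_succ (pa G r))
    have h3 : cnt G S (pa G r) ≤ cnt G S (pa G r + 1) := h2
    omega
  have key : (Sᶜ).card ≤ (Finset.range (4 * S.card)).card := by
    apply Finset.card_le_card_of_injOn f
    · intro r hr
      have hr' : r ∉ S := by simpa using hr
      have h1 := lt1 r hr'
      have h2 := cnt_le G S (pb G r)
      simp only [Finset.coe_range, Set.mem_Iio, hf]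
      split_ifs <;> omega
    · intro r hr r' hr' he
      have hrS : r ∉ S := by simpa using hr
      have hrS' : r' ∉ S := by simpa using hr'
      have l1 := lt1 r hrS
      have l2 := lt1 r' hrS'
      have b1 := cnt_le G S (pb G r)
      have b2 := cnt_le G S (pb G r')
      simp only [hf] at he
      by_cases c1 : L r <;> by_cases c2 : L r'
      · rw [if_pos c1, if_pos c2] at he
        have h3 := c1 r' hrS' he.symm
        have h4 := c2 r hrS he
        exact type_inj G S hind hred hbig hrS hrS' he (by omega)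
      · rw [if_pos c1, if_neg c2] at he
        omega
      · rw [if_neg c1, if_pos c2] at he
        omega
      · rw [if_neg c1, if_neg c2] at he
        have hb : cnt G S (pb G r) = cnt G S (pb G r') := by omega
        by_contra hne
        -- two chords with the same right type and different left types
        have aux : ∀ u v : Fin n, u ∉ S → v ∉ S → cnt G S (pb G u) = cnt G S (pb G v) → ¬ L v →
            cnt G S (pa G u) < cnt G S (pa G v) → False := by
          intro u v hu hv huv hLv hlt
          simp only [hL] at hLv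
          push Not at hLv
          obtain ⟨w, hw, hw1, hw2⟩ := hLv
          have g1 : pa G u < pa G w := by
            by_contra hcon
            have := cnt_mono G S (show pa G w ≤ pa G u by omega)
            omega
          have g2 : pa G w < pb G u := by
            by_contra hcon
            have := cnt_mono G S (show pb G u ≤ pa G w by omega)
            have := lt1 v hv
            omega
          have g3 : pb G u < pb G w := by
            by_contra hcon
            have := cnt_mono G S (show pb G w ≤ pb G u by omega)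
            omega
          have n1 := hind u w hu hw
          rw [int_iff, not_not] at n1
          have := n1.1 ⟨g1, g2⟩
          omega
        rcases Nat.lt_trichotomy (cnt G S (pa G r)) (cnt G S (pa G r')) with h | h | h
        · exact aux r r' hrS hrS' hb c2 h
        · exact hne (type_inj G S hind hred hbig hrS hrS' h hb)
        · exact aux r' r hrS' hrS hb.symm c1 h
  rw [Finset.card_range, Finset.card_compl, Fintype.card_fin] at key
  omega

end S

/-- a maximal set of disjoint interlaced pairs -/
theorem maxmatch (m : ℕ) : ∀ A : Finset (Fin n), A.card = m → ∃ (ν : ℕ) (u w : Fin ν → Fin n),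
    Function.Injective (Sum.elim u w) ∧ (∀ k, G.Interlaced (u k) (w k)) ∧ (∀ k, u k ∈ A ∧ w k ∈ A) ∧
    ∀ r ∈ A, ∀ r' ∈ A, (∀ k, r ≠ u k ∧ r ≠ w k) → (∀ k, r' ≠ u k ∧ r' ≠ w k) → ¬ G.Interlaced r r' := by
  classical
  induction m using Nat.strong_induction_on with
  | _ m ih =>
    intro A hA
    by_cases h : ∃ i ∈ A, ∃ j ∈ A, G.Interlaced i j
    · obtain ⟨i, hi, j, hj, hij⟩ := h
      have hne := ne_of_interlaced G hij
      set A' := (A.erase i).erase j with hA'
      have hcard : A'.card < m := by
        rw [hA', ← hA]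
        exact (Finset.card_le_card (Finset.erase_subset _ _)).trans_lt (Finset.card_erase_lt_of_mem hi)
      obtain ⟨ν, u, w, h1, h2, h3, h4⟩ := ih A'.card hcard A' rfl
      have hA'' : ∀ z, z ∈ A' ↔ z ≠ j ∧ z ≠ i ∧ z ∈ A := by
        intro z; rw [hA', Finset.mem_erase, Finset.mem_erase]
      refine ⟨ν + 1, Fin.cons i u, Fin.cons j w, ?_, ?_, ?_, ?_⟩
      · have ui : ∀ k, u k ≠ i := fun k => ((hA'' _).1 (h3 k).1).2.1
        have uj : ∀ k, u k ≠ j := fun k => ((hA'' _).1 (h3 k).1).1
        have wi : ∀ k, w k ≠ i := fun k => ((hA'' _).1 (h3 k).2).2.1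
        have wj : ∀ k, w k ≠ j := fun k => ((hA'' _).1 (h3 k).2).1
        have hu : Function.Injective u := fun a b hab => Sum.inl_injective (h1 (a₁ := Sum.inl a) (a₂ := Sum.inl b) hab)
        have hw : Function.Injective w := fun a b hab => Sum.inr_injective (h1 (a₁ := Sum.inr a) (a₂ := Sum.inr b) hab)
        have huw : ∀ a b, u a ≠ w b := fun a b hab => by
          have := h1 (a₁ := Sum.inl a) (a₂ := Sum.inr b) hab
          cases this
        have hcu : Function.Injective (Fin.cons i u : Fin (ν + 1) → Fin n) :=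
          Fin.cons_injective_iff.2 ⟨fun ⟨k, hk⟩ => ui k hk, hu⟩
        have hcw : Function.Injective (Fin.cons j w : Fin (ν + 1) → Fin n) :=
          Fin.cons_injective_iff.2 ⟨fun ⟨k, hk⟩ => wj k hk, hw⟩
        have hcuw : ∀ a b, (Fin.cons i u : Fin (ν + 1) → Fin n) a ≠ (Fin.cons j w : Fin (ν + 1) → Fin n) b := by
          intro a b
          refine Fin.cases ?_ (fun a => ?_) a <;> refine Fin.cases ?_ (fun b => ?_) b
          · simpa using hne
          · simpa using (wi b).symm
          · simpa using uj a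
          · simpa using huw a b
        rintro (a | a) (b | b) hab
        · exact congrArg Sum.inl (hcu hab)
        · exact absurd hab (hcuw a b)
        · exact absurd hab.symm (hcuw b a)
        · exact congrArg Sum.inr (hcw hab)
      · intro k
        refine Fin.cases ?_ (fun k => ?_) k
        · simpa using hij
        · simpa using h2 k
      · intro k
        refine Fin.cases ?_ (fun k => ?_) k
        · exact ⟨by simpa using hi, by simpa using hj⟩
        · have := h3 k
          exact ⟨by simpa using ((hA'' _).1 this.1).2.2, by simpa using ((hA'' _).1 this.2).2.2⟩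
      · intro r hr r' hr' c1 c2
        have a1 := c1 0
        have a2 := c2 0
        simp only [Fin.cons_zero] at a1 a2
        apply h4 r ((hA'' r).2 ⟨a1.2, a1.1, hr⟩) r' ((hA'' r').2 ⟨a2.2, a2.1, hr'⟩)
        · intro k; have := c1 k.succ; simpa using this
        · intro k; have := c2 k.succ; simpa using this
    · push Not at h
      exact ⟨0, Fin.elim0, Fin.elim0, fun a => by rcases a with a | a <;> exact a.elim0, fun k => k.elim0,
        fun k => k.elim0, fun r hr r' hr' _ _ => h r hr r' hr'⟩

theorem matching (hred : ∀ i, ∃ j, G.Interlaced i j) (hbig : ∀ i j, i ≠ j → ¬ G.Antiparallel i j) :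
    ∃ (ν : ℕ) (u w : Fin ν → Fin n), Function.Injective (Sum.elim u w) ∧
      (∀ k, G.Interlaced (u k) (w k)) ∧ n ≤ 10 * ν := by
  classical
  obtain ⟨ν, u, w, h1, h2, _, h4⟩ := maxmatch G n Finset.univ (by simp)
  refine ⟨ν, u, w, h1, h2, ?_⟩
  have hS := bound G (Finset.univ.image (Sum.elim u w)) (by
    intro r r' hr hr'
    apply h4 r (Finset.mem_univ _) r' (Finset.mem_univ _)
    · intro k
      constructor
      · rintro rfl; exact hr (Finset.mem_image.2 ⟨Sum.inl k, Finset.mem_univ _, rfl⟩)
      · rintro rfl; exact hr (Finset.mem_image.2 ⟨Sum.inr k, Finset.mem_univ _, rfl⟩)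
    · intro k
      constructor
      · rintro rfl; exact hr' (Finset.mem_image.2 ⟨Sum.inl k, Finset.mem_univ _, rfl⟩)
      · rintro rfl; exact hr' (Finset.mem_image.2 ⟨Sum.inr k, Finset.mem_univ _, rfl⟩)) hred hbig
  rw [Finset.card_image_of_injective _ h1, Finset.card_univ, Fintype.card_sum, Fintype.card_fin] at hS
  omega

end Pool.Agent.R811.Cross
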