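import Pool.Agent.R811.Cross.Bigon
import Pool.Agent.TH561.PK.Defs

set_option autoImplicit false

/-! The diagrams with a given shadow are closed oriented knot diagrams. -/

namespace Pool.Agent.R811.Cross

open Finset Pool.Agent.H891R2.Jones Pool.Agent.H832R3.VJ Pool.Agent.TH561.PK

variable {n : ℕ} (G : Shadow n)

theorem next_inj : Function.Injective (next : Fin (2 * n) → Fin (2 * n)) := by
  intro e f h
  have h' : (next e : ℕ) = next f := congrArg Fin.val h
  apply Fin.ext
  rcases next_val e with ⟨h1, h2⟩ | ⟨h1, h2⟩ <;> rcases next_val f with ⟨h3, h4⟩ | ⟨h3, h4⟩ <;> omega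

theorem count_pq (φ : Fin (2 * n) → Fin (2 * n)) (hφ : Function.Injective φ) (e : Fin (2 * n)) :
    ((List.finRange n).map (fun k => φ (G.p k))).count e +
      ((List.finRange n).map (fun k => φ (G.q k))).count e = 1 := by
  rw [← List.count_append]
  apply List.count_eq_one_of_mem
  · apply List.Nodup.append
    · apply (List.nodup_finRange n).map
      intro a b hab
      by_contra hne
      exact p_ne G hne (hφ hab)
    · apply (List.nodup_finRange n).map
      intro a b hab
      by_contra hne
      exact q_ne G hne (hφ hab)
    · intro z h1 h2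
      rw [List.mem_map] at h1 h2
      obtain ⟨a, _, ha⟩ := h1
      obtain ⟨b, _, hb⟩ := h2
      exact pq_ne G a b (hφ (by rw [ha, hb]))
  · obtain ⟨f, rfl⟩ := Finite.injective_iff_surjective.1 hφ e
    obtain ⟨w, rfl⟩ := G.bij.2 f
    rw [List.mem_append]
    rcases w with k | k
    · left; exact List.mem_map.2 ⟨k, List.mem_finRange k, rfl⟩
    · right; exact List.mem_map.2 ⟨k, List.mem_finRange k, rfl⟩

theorem count_swap {α : Type} [DecidableEq α] (l : List (Fin n)) (u o p q : Fin n → α)
    (h : ∀ k, (u k = p k ∧ o k = q k) ∨ (u k = q k ∧ o k = p k)) (e : α) :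
    (l.map u).count e + (l.map o).count e = (l.map p).count e + (l.map q).count e := by
  induction l with
  | nil => rfl
  | cons k l ih =>
    simp only [List.map_cons, List.count_cons]
    rcases h k with ⟨h1, h2⟩ | ⟨h1, h2⟩ <;> rw [h1, h2] <;> omega

theorem isClosed (s : Fin n → Bool) : (G.diagram s).IsClosed := by
  intro e
  constructor
  · have h : (G.diagram s).starts.count e =
        ((List.finRange n).map (fun k => if (G.choice k (s k)).underFwd then (G.choice k (s k)).a
          else (G.choice k (s k)).c)).count e +
        ((List.finRange n).map (fun k => if (G.choice k (s k)).overFwd then (G.choice k (s k)).b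
          else (G.choice k (s k)).d)).count e := by
      unfold Diagram.starts Shadow.diagram
      simp only [List.map_nil, List.nil_append, List.count_append, List.map_map]
      rfl
    rw [h, count_swap (List.finRange n) _ _ (fun k => G.p k) (fun k => G.q k)]
    · exact count_pq G id Function.injective_id e
    · intro k
      unfold Shadow.choice positive negative Shadow.crossing switch Crossing.sign
      cases G.left k <;> cases s k <;> simp
  · have h : (G.diagram s).ends.count e =
        ((List.finRange n).map (fun k => if (G.choice k (s k)).underFwd then (G.choice k (s k)).c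
          else (G.choice k (s k)).a)).count e +
        ((List.finRange n).map (fun k => if (G.choice k (s k)).overFwd then (G.choice k (s k)).d
          else (G.choice k (s k)).b)).count e := by
      unfold Diagram.ends Shadow.diagram
      simp only [List.map_nil, List.nil_append, List.count_append, List.map_map]
      rfl
    rw [h, count_swap (List.finRange n) _ _ (fun k => next (G.p k)) (fun k => next (G.q k))]
    · exact count_pq G next next_inj e
    · intro k
      unfold Shadow.choice positive negative Shadow.crossing switch Crossing.sign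
      cases G.left k <;> cases s k <;> simp

theorem piece_next (s : Fin n → Bool) (e : Fin (2 * n)) :
    Piece (G.diagram s) e (next e) ∨ Piece (G.diagram s) (next e) e := by
  obtain ⟨w, rfl⟩ := G.bij.2 e
  have key : ∀ k, (Piece (G.diagram s) (G.p k) (next (G.p k)) ∨ Piece (G.diagram s) (next (G.p k)) (G.p k)) ∧
      (Piece (G.diagram s) (G.q k) (next (G.q k)) ∨ Piece (G.diagram s) (next (G.q k)) (G.q k)) := by
    intro k
    have hm : G.choice k (s k) ∈ (G.diagram s).crossings :=
      List.mem_map.2 ⟨k, List.mem_finRange k, rfl⟩
    have hp : ∀ a b, ((a = (G.choice k (s k)).a ∧ b = (G.choice k (s k)).c) ∨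
        (a = (G.choice k (s k)).b ∧ b = (G.choice k (s k)).d)) → Piece (G.diagram s) a b :=
      fun a b h => Or.inr ⟨_, hm, h⟩
    have hc : (((G.p k = (G.choice k (s k)).a ∧ next (G.p k) = (G.choice k (s k)).c) ∨
        (G.p k = (G.choice k (s k)).b ∧ next (G.p k) = (G.choice k (s k)).d)) ∨
        ((next (G.p k) = (G.choice k (s k)).a ∧ G.p k = (G.choice k (s k)).c) ∨
        (next (G.p k) = (G.choice k (s k)).b ∧ G.p k = (G.choice k (s k)).d))) ∧
        (((G.q k = (G.choice k (s k)).a ∧ next (G.q k) = (G.choice k (s k)).c) ∨
        (G.q k = (G.choice k (s k)).b ∧ next (G.q k) = (G.choice k (s k)).d)) ∨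
        ((next (G.q k) = (G.choice k (s k)).a ∧ G.q k = (G.choice k (s k)).c) ∨
        (next (G.q k) = (G.choice k (s k)).b ∧ G.q k = (G.choice k (s k)).d))) := by
      unfold Shadow.choice positive negative Shadow.crossing switch Crossing.sign
      cases G.left k <;> cases s k <;> simp
    exact ⟨hc.1.imp (hp _ _) (hp _ _), hc.2.imp (hp _ _) (hp _ _)⟩
  rcases w with k | k
  · exact (key k).1
  · exact (key k).2

theorem isKnot (s : Fin n → Bool) : IsKnot (G.diagram s) := by
  have step : ∀ e, Relation.EqvGen (Piece (G.diagram s)) e (next e) := by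
    intro e
    rcases piece_next G s e with h | h
    · exact Relation.EqvGen.rel _ _ h
    · exact Relation.EqvGen.symm _ _ (Relation.EqvGen.rel _ _ h)
  have key : ∀ (k : ℕ) (e f : Fin (2 * n)), (f : ℕ) = e + k →
      Relation.EqvGen (Piece (G.diagram s)) e f := by
    intro k
    induction k with
    | zero =>
      intro e f h
      have : e = f := Fin.ext (by omega)
      rw [this]; exact Relation.EqvGen.refl _
    | succ k ih =>
      intro e f h
      have hf := f.2
      refine Relation.EqvGen.trans _ _ _ (step e) (ih (next e) f ?_)
      rcases next_val e with ⟨_, h2⟩ | ⟨h1, _⟩ <;> omega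
  intro e f
  rcases Nat.le_total (e : ℕ) f with h | h
  · exact key (f - e) e f (by omega)
  · exact Relation.EqvGen.symm _ _ (key (e - f) f e (by omega))

end Pool.Agent.R811.Cross
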