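import Pool.Agent.R811.Cross.Par

set_option autoImplicit false

/-! The fitting colourings of a knot diagram with two interlaced double points smoothed. -/

namespace Pool.Agent.R811.Cross

open Finset Pool.Agent.H891R2.Jones Pool.Agent.H832R3.VJ

/-- a colouring of the edges which changes at all passages except for those after `x`, `x'`, `y`, `y'`,
where the strands are joined crosswise -/
def V {n : ℕ} (c : Fin (2 * n) → Fin 2) (x x' y y' : Fin (2 * n)) : Prop :=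
  (∀ e, e ≠ x → e ≠ x' → e ≠ y → e ≠ y' → c e ≠ c (next e)) ∧
    c x = c (next x') ∧ c x' = c (next x) ∧ c y = c (next y') ∧ c y' = c (next y)

theorem V_symm1 {n : ℕ} {c : Fin (2 * n) → Fin 2} {x x' y y' : Fin (2 * n)} :
    V c x x' y y' ↔ V c x' x y y' := by
  unfold V
  constructor
  · rintro ⟨h1, h2, h3, h4, h5⟩
    exact ⟨fun e a b c d => h1 e b a c d, h3, h2, h4, h5⟩
  · rintro ⟨h1, h2, h3, h4, h5⟩
    exact ⟨fun e a b c d => h1 e b a c d, h3, h2, h4, h5⟩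

theorem V_symm2 {n : ℕ} {c : Fin (2 * n) → Fin 2} {x x' y y' : Fin (2 * n)} :
    V c x x' y y' ↔ V c x x' y' y := by
  unfold V
  constructor
  · rintro ⟨h1, h2, h3, h4, h5⟩
    exact ⟨fun e a b c d => h1 e a b d c, h2, h3, h5, h4⟩
  · rintro ⟨h1, h2, h3, h4, h5⟩
    exact ⟨fun e a b c d => h1 e a b d c, h2, h3, h5, h4⟩

theorem V_symm3 {n : ℕ} {c : Fin (2 * n) → Fin 2} {x x' y y' : Fin (2 * n)} :
    V c x x' y y' ↔ V c y y' x x' := by
  unfold V
  constructor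
  · rintro ⟨h1, h2, h3, h4, h5⟩
    exact ⟨fun e a b c d => h1 e c d a b, h4, h5, h2, h3⟩
  · rintro ⟨h1, h2, h3, h4, h5⟩
    exact ⟨fun e a b c d => h1 e c d a b, h4, h5, h2, h3⟩

/-- the shift of the colouring -/
def kk (x y x' y' e : ℕ) : ℕ :=
  if e ≤ x then y + y' + 1 else if e ≤ y then 0 else if e ≤ x' then x + x' + 1
    else if e ≤ y' then x + y + x' + y' else y + y' + 1

/-- the colouring -/
def c0 {n : ℕ} (x y x' y' : ℕ) (e : Fin (2 * n)) : Fin 2 :=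
  if (e + kk x y x' y' e) % 2 = 0 then 0 else 1

theorem c0_eq {n : ℕ} (x y x' y' : ℕ) (e f : Fin (2 * n)) :
    c0 x y x' y' e = c0 x y x' y' f ↔
      ((e : ℕ) + kk x y x' y' e) % 2 = ((f : ℕ) + kk x y x' y' f) % 2 := by
  unfold c0
  split_ifs with h1 h2 h2
  · simp [h1, h2]
  · constructor
    · intro h; exact absurd h (by decide)
    · intro h; omega
  · constructor
    · intro h; exact absurd h (by decide)
    · intro h; omega
  · constructor
    · intro _; omega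
    · intro _; rfl

theorem next_val {n : ℕ} (e : Fin (2 * n)) :
    ((e : ℕ) + 1 < 2 * n ∧ (next e : ℕ) = e + 1) ∨ ((e : ℕ) + 1 = 2 * n ∧ (next e : ℕ) = 0) := by
  have he := e.2
  unfold next
  rcases Nat.lt_or_ge ((e : ℕ) + 1) (2 * n) with h | h
  · left; exact ⟨h, Nat.mod_eq_of_lt h⟩
  · right
    have : (e : ℕ) + 1 = 2 * n := by omega
    refine ⟨this, ?_⟩
    show ((e : ℕ) + 1) % (2 * n) = 0
    rw [this]; exact Nat.mod_self _

theorem V_c0 {n : ℕ} (x x' y y' : Fin (2 * n)) (h1 : (x : ℕ) < y) (h2 : (y : ℕ) < x')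
    (h3 : (x' : ℕ) < y') : V (c0 x y x' y') x x' y y' := by
  have hy' := y'.2
  refine ⟨?_, ?_, ?_, ?_, ?_⟩
  · intro e a b c d
    have a1 : (e : ℕ) ≠ x := fun h => a (Fin.ext h)
    have b1 : (e : ℕ) ≠ x' := fun h => b (Fin.ext h)
    have cc : (e : ℕ) ≠ y := fun h => c (Fin.ext h)
    have d1 : (e : ℕ) ≠ y' := fun h => d (Fin.ext h)
    rw [ne_eq, c0_eq]
    unfold kk
    rcases next_val e with ⟨he, hn⟩ | ⟨he, hn⟩ <;> rw [hn] <;> split_ifs <;> omega
  · rw [c0_eq]; unfold kk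
    rcases next_val x' with ⟨he, hn⟩ | ⟨he, hn⟩ <;> rw [hn] <;> split_ifs <;> omega
  · rw [c0_eq]; unfold kk
    rcases next_val x with ⟨he, hn⟩ | ⟨he, hn⟩ <;> rw [hn] <;> split_ifs <;> omega
  · rw [c0_eq]; unfold kk
    rcases next_val y' with ⟨he, hn⟩ | ⟨he, hn⟩ <;> rw [hn] <;> split_ifs <;> omega
  · rw [c0_eq]; unfold kk
    rcases next_val y with ⟨he, hn⟩ | ⟨he, hn⟩ <;> rw [hn] <;> split_ifs <;> omega

theorem fin2 : ∀ a b c d : Fin 2, a ≠ b → c ≠ d → (a = c ↔ b = d) := by decide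

theorem V_unique {n : ℕ} (x x' y y' : Fin (2 * n)) (h1 : (x : ℕ) < y) (h2 : (y : ℕ) < x')
    (h3 : (x' : ℕ) < y') (c d : Fin (2 * n) → Fin 2) (hc : V c x x' y y') (hd : V d x x' y y') :
    c = d ∨ c = (fun z => 1 - z) ∘ d := by
  have hx := x.2
  have hy' := y'.2
  have step : ∀ e : Fin (2 * n), e ≠ x → e ≠ x' → e ≠ y → e ≠ y' →
      (c e = d e ↔ c (next e) = d (next e)) := fun e a1 a2 a3 a4 =>
    fin2 _ _ _ _ (hc.1 e a1 a2 a3 a4) (hd.1 e a1 a2 a3 a4)
  -- chains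
  have chain : ∀ (k : ℕ) (e f : Fin (2 * n)), (f : ℕ) = e + k →
      (∀ z : Fin (2 * n), (e : ℕ) ≤ z → (z : ℕ) < f → z ≠ x ∧ z ≠ x' ∧ z ≠ y ∧ z ≠ y') →
      (c e = d e ↔ c f = d f) := by
    intro k
    induction k with
    | zero =>
      intro e f hf _
      have : f = e := Fin.ext (by omega)
      rw [this]
    | succ k ih =>
      intro e f hf hz
      have hf2 := f.2
      obtain ⟨a1, a2, a3, a4⟩ := hz e le_rfl (by omega)
      rw [step e a1 a2 a3 a4]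
      have hn : (next e : ℕ) = e + 1 := by
        rcases next_val e with ⟨_, hn⟩ | ⟨he, _⟩
        · exact hn
        · omega
      exact ih (next e) f (by omega) (fun z hz1 hz2 => hz z (by omega) hz2)
  have s1 : ∀ e : Fin (2 * n), (e : ℕ) ≤ x → (c e = d e ↔ c x = d x) := fun e he =>
    chain (x - e) e x (by omega) (fun z hz1 hz2 => by
      refine ⟨?_, ?_, ?_, ?_⟩ <;> intro h <;> rw [h] at hz1 hz2 <;> omega)
  have s5 : ∀ e : Fin (2 * n), (y' : ℕ) < e → (c e = d e ↔ c x = d x) := by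
    intro e he
    have he2 := e.2
    have hl : 2 * n - 1 < 2 * n := by omega
    have t1 := chain (2 * n - 1 - e) e ⟨2 * n - 1, hl⟩ (by show 2 * n - 1 = _; omega)
      (fun z hz1 hz2 => by
        refine ⟨?_, ?_, ?_, ?_⟩ <;> intro h <;> rw [h] at hz1 hz2 <;> omega)
    have ne : ∀ z : Fin (2 * n), (z : ℕ) ≤ y' → (⟨2 * n - 1, hl⟩ : Fin (2 * n)) ≠ z := by
      intro z hz h
      have : 2 * n - 1 = (z : ℕ) := congrArg Fin.val h
      omega
    have t2 := step ⟨2 * n - 1, hl⟩ (ne x (by omega)) (ne x' (by omega)) (ne y (by omega)) (ne y' le_rfl)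
    rw [t1, t2]
    apply s1
    rcases next_val (⟨2 * n - 1, hl⟩ : Fin (2 * n)) with ⟨h, _⟩ | ⟨_, h⟩
    · have : 2 * n - 1 + 1 < 2 * n := h
      omega
    · rw [h]; exact Nat.zero_le _
  have s2 : ∀ e : Fin (2 * n), (x : ℕ) < e → (e : ℕ) ≤ y → (c e = d e ↔ c x = d x) := by
    intro e he1 he2
    have t1 := chain (y - e) e y (by omega) (fun z hz1 hz2 => by
      refine ⟨?_, ?_, ?_, ?_⟩ <;> intro h <;> rw [h] at hz1 hz2 <;> omega)
    rw [t1, hc.2.2.2.1, hd.2.2.2.1]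
    rcases next_val y' with ⟨_, hn⟩ | ⟨_, hn⟩
    · exact s5 _ (by omega)
    · exact s1 _ (by omega)
  have s3 : ∀ e : Fin (2 * n), (y : ℕ) < e → (e : ℕ) ≤ x' → (c e = d e ↔ c x = d x) := by
    intro e he1 he2
    have t1 := chain (x' - e) e x' (by omega) (fun z hz1 hz2 => by
      refine ⟨?_, ?_, ?_, ?_⟩ <;> intro h <;> rw [h] at hz1 hz2 <;> omega)
    rw [t1, hc.2.2.1, hd.2.2.1]
    rcases next_val x with ⟨_, hn⟩ | ⟨h, _⟩
    · exact s2 _ (by omega) (by omega)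
    · omega
  have s4 : ∀ e : Fin (2 * n), (x' : ℕ) < e → (e : ℕ) ≤ y' → (c e = d e ↔ c x = d x) := by
    intro e he1 he2
    have t1 := chain (y' - e) e y' (by omega) (fun z hz1 hz2 => by
      refine ⟨?_, ?_, ?_, ?_⟩ <;> intro h <;> rw [h] at hz1 hz2 <;> omega)
    rw [t1, hc.2.2.2.2, hd.2.2.2.2]
    rcases next_val y with ⟨_, hn⟩ | ⟨h, _⟩
    · exact s3 _ (by omega) (by omega)
    · omega
  have all : ∀ e : Fin (2 * n), (c e = d e ↔ c x = d x) := by
    intro e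
    rcases Nat.lt_or_ge (x : ℕ) e with h | h
    · rcases Nat.lt_or_ge (y : ℕ) e with h' | h'
      · rcases Nat.lt_or_ge (x' : ℕ) e with h'' | h''
        · rcases Nat.lt_or_ge (y' : ℕ) e with h4 | h4
          · exact s5 e h4
          · exact s4 e h'' h4
        · exact s3 e h' h''
      · exact s2 e h h'
    · exact s1 e h
  by_cases hh : c x = d x
  · left; funext e; exact (all e).2 hh
  · right; funext e
    have : c e ≠ d e := fun h => hh ((all e).1 h)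
    simp only [Function.comp_apply]
    revert this
    generalize c e = u
    generalize d e = v
    revert u v
    decide

/-- existence and uniqueness of the colouring for a pair of interlaced double points -/
theorem exists_V {n : ℕ} (x x' y y' : Fin (2 * n)) (hxy : x ≠ y) (hxy' : x ≠ y') (hx'y : x' ≠ y)
    (hx'y' : x' ≠ y') (h : ¬ (Shadow.Between x x' y ↔ Shadow.Between x x' y')) :
    ∃ c, V c x x' y y' ∧ ∀ d, V d x x' y y' → d = c ∨ d = (fun z => 1 - z) ∘ c := by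
  have main : ∀ a a' b b' : Fin (2 * n), (a : ℕ) < b → (b : ℕ) < a' → (a' : ℕ) < b' →
      ∃ c, V c a a' b b' ∧ ∀ d, V d a a' b b' → d = c ∨ d = (fun z => 1 - z) ∘ c :=
    fun a a' b b' h1 h2 h3 => ⟨_, V_c0 a a' b b' h1 h2 h3, fun d hd =>
      V_unique a a' b b' h1 h2 h3 d _ hd (V_c0 a a' b b' h1 h2 h3)⟩
  have hxy1 : (x : ℕ) ≠ y := fun h => hxy (Fin.ext h)
  have hxy2 : (x : ℕ) ≠ y' := fun h => hxy' (Fin.ext h)
  have hxy3 : (x' : ℕ) ≠ y := fun h => hx'y (Fin.ext h)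
  have hxy4 : (x' : ℕ) ≠ y' := fun h => hx'y' (Fin.ext h)
  unfold Shadow.Between at h
  rcases Nat.lt_or_ge (x : ℕ) x' with hx | hx
  · rw [min_eq_left hx.le, max_eq_right hx.le] at h
    by_cases hy : (x : ℕ) < y ∧ (y : ℕ) < x'
    · have hn : ¬ ((x : ℕ) < y' ∧ (y' : ℕ) < x') := fun h' => h ⟨fun _ => h', fun _ => hy⟩
      rcases Nat.lt_or_ge (x' : ℕ) y' with h4 | h4
      · exact main x x' y y' hy.1 hy.2 h4
      · obtain ⟨c, hc1, hc2⟩ := main y' y x x' (by omega) hy.1 hy.2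
        refine ⟨c, V_symm3.2 (V_symm1.2 hc1), fun d hd => hc2 d (V_symm1.1 (V_symm3.1 hd))⟩
    · have hy' : (x : ℕ) < y' ∧ (y' : ℕ) < x' := by
        by_contra hy'
        exact h ⟨fun a => absurd a hy, fun a => absurd a hy'⟩
      rcases Nat.lt_or_ge (x' : ℕ) y with h4 | h4
      · obtain ⟨c, hc1, hc2⟩ := main x x' y' y hy'.1 hy'.2 h4
        exact ⟨c, V_symm2.2 hc1, fun d hd => hc2 d (V_symm2.1 hd)⟩
      · obtain ⟨c, hc1, hc2⟩ := main y y' x x' (by omega) hy'.1 hy'.2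
        exact ⟨c, V_symm3.2 hc1, fun d hd => hc2 d (V_symm3.1 hd)⟩
  · rw [min_eq_right hx, max_eq_left hx] at h
    by_cases hy : (x' : ℕ) < y ∧ (y : ℕ) < x
    · have hn : ¬ ((x' : ℕ) < y' ∧ (y' : ℕ) < x) := fun h' => h ⟨fun _ => h', fun _ => hy⟩
      rcases Nat.lt_or_ge (x : ℕ) y' with h4 | h4
      · obtain ⟨c, hc1, hc2⟩ := main x' x y y' hy.1 hy.2 h4
        exact ⟨c, V_symm1.2 hc1, fun d hd => hc2 d (V_symm1.1 hd)⟩
      · obtain ⟨c, hc1, hc2⟩ := main y' y x' x (by omega) hy.1 hy.2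
        exact ⟨c, V_symm1.2 (V_symm3.2 (V_symm1.2 hc1)),
          fun d hd => hc2 d (V_symm1.1 (V_symm3.1 (V_symm1.1 hd)))⟩
    · have hy' : (x' : ℕ) < y' ∧ (y' : ℕ) < x := by
        by_contra hy'
        exact h ⟨fun a => absurd a hy, fun a => absurd a hy'⟩
      rcases Nat.lt_or_ge (x : ℕ) y with h4 | h4
      · obtain ⟨c, hc1, hc2⟩ := main x' x y' y hy'.1 hy'.2 h4
        exact ⟨c, V_symm1.2 (V_symm2.2 hc1), fun d hd => hc2 d (V_symm2.1 (V_symm1.1 hd))⟩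
      · obtain ⟨c, hc1, hc2⟩ := main y y' x' x (by omega) hy'.1 hy'.2
        exact ⟨c, V_symm1.2 (V_symm3.2 hc1), fun d hd => hc2 d (V_symm3.1 (V_symm1.1 hd))⟩

end Pool.Agent.R811.Cross
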