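import Mathlib

set_option autoImplicit false
set_option linter.unusedSectionVars false

/-! Level sets of quadratic functions on the cube. -/

namespace Pool.Agent.R811.Cross

open Finset

variable {ι : Type} [Fintype ι] [DecidableEq ι]

/-- the sign of a bit -/
def sg (b : Bool) : ℤ := if b then 1 else -1

theorem sg_sq (b : Bool) : sg b * sg b = 1 := by cases b <;> rfl

theorem sg_not (b : Bool) : sg (!b) = -sg b := by cases b <;> rfl

theorem sg_pm (b : Bool) : sg b = 1 ∨ sg b = -1 := by cases b <;> simp [sg]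

/-- change one bit -/
def flip (i : ι) (x : ι → Bool) : ι → Bool := Function.update x i (!(x i))

theorem flip_same (i : ι) (x : ι → Bool) : flip i x i = !(x i) := by simp [flip]

theorem flip_ne {i j : ι} (h : j ≠ i) (x : ι → Bool) : flip i x j = x j := by simp [flip, h]

theorem flip_flip (i : ι) (x : ι → Bool) : flip i (flip i x) = x := by
  funext j
  by_cases h : j = i
  · subst h; simp [flip]
  · simp [flip, h]

theorem flip_comm (i j : ι) (x : ι → Bool) : flip i (flip j x) = flip j (flip i x) := by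
  by_cases hij : i = j
  · subst hij; rfl
  funext k
  by_cases hk : k = i
  · subst hk
    rw [flip_same, flip_ne hij, flip_ne hij, flip_same]
  · by_cases hk' : k = j
    · subst hk'
      rw [flip_ne hk, flip_same, flip_same, flip_ne hk]
    · rw [flip_ne hk, flip_ne hk', flip_ne hk', flip_ne hk]

theorem sum_flip (i : ι) (H : (ι → Bool) → ℤ) : ∑ x, H (flip i x) = ∑ x, H x := by
  have e : Function.Involutive (flip i : (ι → Bool) → (ι → Bool)) := flip_flip i
  exact Equiv.sum_comp e.toPerm H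

/-- the difference in the direction `i` -/
def D (i : ι) (H : (ι → Bool) → ℤ) (x : ι → Bool) : ℤ :=
  H (Function.update x i true) - H (Function.update x i false)

theorem D_sg (i : ι) (H : (ι → Bool) → ℤ) (x : ι → Bool) : H x - H (flip i x) = sg (x i) * D i H x := by
  unfold D flip sg
  by_cases h : x i = true
  · rw [h]
    have e : Function.update x i true = x := by rw [← h]; exact Function.update_eq_self i x
    rw [e]; simp
  · have h' : x i = false := by simpa using h
    rw [h']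
    have e : Function.update x i false = x := by rw [← h']; exact Function.update_eq_self i x
    rw [e]; simp

theorem D_flip_self (i : ι) (H : (ι → Bool) → ℤ) (x : ι → Bool) : D i H (flip i x) = D i H x := by
  unfold D flip
  simp

/-- the sign, `1` at zero -/
def sn (z : ℤ) : ℤ := if 0 ≤ z then 1 else -1

theorem sn_pm (z : ℤ) : sn z = 1 ∨ sn z = -1 := by unfold sn; split_ifs <;> simp

theorem sn_sq (z : ℤ) : sn z * sn z = 1 := by rcases sn_pm z with h | h <;> rw [h] <;> norm_num

theorem sn_mul_nonneg (z : ℤ) : 0 ≤ sn z * z := by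
  unfold sn; split_ifs with h <;> omega

/-- the number of the points at which the bit `i` matters -/
def inf (i : ι) (G : (ι → Bool) → ℤ) : ℤ := ∑ x, if G x ≠ G (flip i x) then 1 else 0

theorem inf_eq (i : ι) (H h : (ι → Bool) → ℤ) (h1 : ∀ x, h x = 1 ∨ h x = -1)
    (h2 : ∀ x, h (flip i x) = h x) (h3 : ∀ x, 0 ≤ h x * D i H x) :
    inf i (fun x => sn (H x)) = ∑ x, sn (H x) * (sg (x i) * h x) := by
  have e1 : ∑ x, sn (H (flip i x)) * (sg (flip i x i) * h (flip i x)) =
      ∑ x, sn (H x) * (sg (x i) * h x) :=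
    sum_flip i (fun x => sn (H x) * (sg (x i) * h x))
  have e2 : 2 * inf i (fun x => sn (H x)) = 2 * ∑ x, sn (H x) * (sg (x i) * h x) := by
    have e3 : 2 * ∑ x, sn (H x) * (sg (x i) * h x) =
        ∑ x, (sn (H x) * (sg (x i) * h x) + sn (H (flip i x)) * (sg (flip i x i) * h (flip i x))) := by
      rw [Finset.sum_add_distrib, e1]; ring
    rw [e3]
    unfold inf
    rw [Finset.mul_sum]
    refine Finset.sum_congr rfl fun x _ => ?_
    rw [flip_same, sg_not, h2]
    have hd := D_sg i H x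
    have h3x := h3 x
    have hs := sg_pm (x i)
    beta_reduce
    generalize D i H x = dd at hd h3x
    generalize H x = u at hd ⊢
    generalize H (flip i x) = v at hd ⊢
    rcases h1 x with hh | hh <;> rcases hs with hs | hs <;> rw [hh] at h3x ⊢ <;> rw [hs] at hd ⊢ <;>
      unfold sn <;> by_cases hu : 0 ≤ u <;> by_cases hv : 0 ≤ v <;> simp only [hu, hv, if_true, if_false] <;>
      norm_num <;> omega
  omega

theorem card_cube : ((Finset.univ : Finset (ι → Bool)).card : ℤ) = 2 ^ Fintype.card ι := by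
  simp

theorem sum_sg_mul {i j : ι} (hij : i ≠ j) : ∑ x : ι → Bool, sg (x i) * sg (x j) = 0 := by
  have h := sum_flip i (fun x : ι → Bool => sg (x i) * sg (x j))
  simp only [flip_same, flip_ne hij.symm, sg_not, neg_mul, Finset.sum_neg_distrib] at h
  omega

/-- Cauchy–Schwarz -/
theorem cs (G Y : (ι → Bool) → ℤ) (hG : ∀ x, G x * G x = 1) :
    (∑ x, G x * Y x) ^ 2 ≤ 2 ^ Fintype.card ι * ∑ x, Y x ^ 2 := by
  have h := Finset.sum_mul_sq_le_sq_mul_sq (Finset.univ) G Y
  have h1 : ∑ x, G x ^ 2 = 2 ^ Fintype.card ι := by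
    rw [← card_cube, Finset.sum_congr rfl (fun x _ => by rw [pow_two, hG x])]
    simp
  rw [h1] at h
  exact h

theorem lin (S : Finset ι) (H : (ι → Bool) → ℤ) (hH : ∀ j ∈ S, ∀ x y, D j H x = D j H y) :
    (∑ j ∈ S, inf j (fun x => sn (H x))) ^ 2 ≤ 4 ^ Fintype.card ι * S.card := by
  classical
  set x0 : ι → Bool := fun _ => true
  have e : ∑ j ∈ S, inf j (fun x => sn (H x)) =
      ∑ x, sn (H x) * ∑ j ∈ S, sg (x j) * sn (D j H x0) := by
    rw [Finset.sum_congr rfl (fun j hj => inf_eq j H (fun _ => sn (D j H x0)) (fun _ => sn_pm _)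
      (fun _ => rfl) (fun x => by rw [hH j hj x x0]; exact sn_mul_nonneg _))]
    rw [Finset.sum_comm]
    refine Finset.sum_congr rfl fun x _ => ?_
    rw [Finset.mul_sum]
  rw [e]
  refine (cs _ _ (fun x => sn_sq _)).trans ?_
  have e2 : ∑ x : ι → Bool, (∑ j ∈ S, sg (x j) * sn (D j H x0)) ^ 2 =
      2 ^ Fintype.card ι * S.card := by
    have : ∀ x : ι → Bool, (∑ j ∈ S, sg (x j) * sn (D j H x0)) ^ 2 =
        ∑ j ∈ S, ∑ k ∈ S, (sn (D j H x0) * sn (D k H x0)) * (sg (x j) * sg (x k)) := by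
      intro x
      rw [pow_two, Finset.sum_mul_sum]
      refine Finset.sum_congr rfl fun j _ => Finset.sum_congr rfl fun k _ => by ring
    rw [Finset.sum_congr rfl (fun x _ => this x), Finset.sum_comm]
    have h2 : ∀ j ∈ S, ∑ x : ι → Bool, ∑ k ∈ S, (sn (D j H x0) * sn (D k H x0)) * (sg (x j) * sg (x k)) =
        2 ^ Fintype.card ι := by
      intro j hj
      rw [Finset.sum_comm, Finset.sum_eq_single j]
      · rw [Finset.sum_congr rfl (fun x _ => by rw [sn_sq, sg_sq]), ← card_cube]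
        simp
      · intro k _ hkj
        rw [← Finset.mul_sum, sum_sg_mul (Ne.symm hkj), mul_zero]
      · intro h; exact absurd hj h
    rw [Finset.sum_congr rfl h2, Finset.sum_const, nsmul_eq_mul]
    ring
  rw [e2]
  have : (4 : ℤ) ^ Fintype.card ι = 2 ^ Fintype.card ι * 2 ^ Fintype.card ι := by
    rw [← mul_pow]; norm_num
  rw [this]
  nlinarith

theorem inf_nonneg (i : ι) (G : (ι → Bool) → ℤ) : 0 ≤ inf i G := by
  unfold inf
  refine Finset.sum_nonneg fun x _ => ?_
  split_ifs <;> norm_num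

/-- the cross terms -/
theorem cross {i j : ι} (hij : i ≠ j) (gi gj : (ι → Bool) → ℤ) (h1 : ∀ x, gi (flip i x) = gi x)
    (hi : ∀ x, gi x = 1 ∨ gi x = -1) (hj : ∀ x, gj x = 1 ∨ gj x = -1) :
    ∑ x, (sg (x i) * gi x) * (sg (x j) * gj x) ≤ inf i gj := by
  have h := sum_flip i (fun x => (sg (x i) * gi x) * (sg (x j) * gj x))
  have h2 : 2 * ∑ x, (sg (x i) * gi x) * (sg (x j) * gj x) =
      ∑ x, ((sg (x i) * gi x) * (sg (x j) * gj x) +
        (sg (flip i x i) * gi (flip i x)) * (sg (flip i x j) * gj (flip i x))) := by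
    rw [Finset.sum_add_distrib, h]; ring
  have h3 : 2 * inf i gj = ∑ x, 2 * (if gj x ≠ gj (flip i x) then (1 : ℤ) else 0) := by
    unfold inf; rw [Finset.mul_sum]
  have h4 : 2 * ∑ x, (sg (x i) * gi x) * (sg (x j) * gj x) ≤ 2 * inf i gj := by
    rw [h2, h3]
    refine Finset.sum_le_sum fun x _ => ?_
    rw [flip_same, sg_not, h1, flip_ne hij.symm]
    rcases hi x with a | a <;> rcases hj x with b | b <;> rcases hj (flip i x) with c | c <;>
      rcases sg_pm (x i) with d | d <;> rcases sg_pm (x j) with e | e <;>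
      rw [a, b, c, d, e] <;> norm_num
  omega

/-- the total influence of a quadratic threshold function -/
theorem quad (S : Finset ι) (F : (ι → Bool) → ℤ)
    (hF : ∀ i ∈ S, ∀ j ∈ S, i ≠ j → ∀ x y, D j (D i F) x = D j (D i F) y) :
    (∑ i ∈ S, inf i (fun x => sn (F x))) ^ 4 ≤ 4 * 16 ^ Fintype.card ι * (S.card : ℤ) ^ 3 := by
  classical
  set N : ℤ := 2 ^ Fintype.card ι with hN
  have hNpos : 0 < N := by positivity
  have h4 : (4 : ℤ) ^ Fintype.card ι = N ^ 2 := by rw [hN, ← pow_mul, mul_comm, pow_mul]; norm_num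
  have h16 : (16 : ℤ) ^ Fintype.card ι = N ^ 4 := by rw [hN, ← pow_mul, mul_comm, pow_mul]; norm_num
  set g : ι → (ι → Bool) → ℤ := fun i x => sn (D i F x) with hg
  have e : ∑ i ∈ S, inf i (fun x => sn (F x)) = ∑ x, sn (F x) * ∑ i ∈ S, sg (x i) * g i x := by
    rw [Finset.sum_congr rfl (fun i _ => inf_eq i F (g i) (fun _ => sn_pm _)
      (fun x => by simp only [hg, D_flip_self]) (fun x => sn_mul_nonneg _))]
    rw [Finset.sum_comm]
    refine Finset.sum_congr rfl fun x _ => ?_
    rw [Finset.mul_sum]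
  set A := ∑ i ∈ S, inf i (fun x => sn (F x)) with hA
  have hA0 : 0 ≤ A := Finset.sum_nonneg fun i _ => inf_nonneg i _
  have c1 : A ^ 2 ≤ N * ∑ x, (∑ i ∈ S, sg (x i) * g i x) ^ 2 := by
    rw [e]; exact cs _ _ (fun x => sn_sq _)
  set T : ι → ℤ := fun j => ∑ i ∈ S, inf i (g j) with hT
  have c2 : ∑ x : ι → Bool, (∑ i ∈ S, sg (x i) * g i x) ^ 2 ≤ N * S.card + ∑ j ∈ S, T j := by
    have e1 : ∑ x : ι → Bool, (∑ i ∈ S, sg (x i) * g i x) ^ 2 =
        ∑ j ∈ S, ∑ i ∈ S, ∑ x : ι → Bool, (sg (x i) * g i x) * (sg (x j) * g j x) := by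
      have : ∀ x : ι → Bool, (∑ i ∈ S, sg (x i) * g i x) ^ 2 =
          ∑ j ∈ S, ∑ i ∈ S, (sg (x i) * g i x) * (sg (x j) * g j x) := by
        intro x
        rw [pow_two, Finset.sum_mul_sum]
        refine Finset.sum_congr rfl fun j _ => Finset.sum_congr rfl fun k _ => by ring
      rw [Finset.sum_congr rfl (fun x _ => this x), Finset.sum_comm]
      refine Finset.sum_congr rfl fun j _ => ?_
      rw [Finset.sum_comm]
    rw [e1]
    have e2 : N * S.card + ∑ j ∈ S, T j = ∑ j ∈ S, ∑ i ∈ S, ((if i = j then N else 0) + inf i (g j)) := by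
      have : ∀ j ∈ S, ∑ i ∈ S, ((if i = j then N else 0) + inf i (g j)) = N + T j := by
        intro j hj
        rw [Finset.sum_add_distrib, Finset.sum_ite_eq' S j, if_pos hj]
      rw [Finset.sum_congr rfl this, Finset.sum_add_distrib, Finset.sum_const, nsmul_eq_mul]
      ring
    rw [e2]
    refine Finset.sum_le_sum fun j _ => Finset.sum_le_sum fun i _ => ?_
    by_cases hij : i = j
    · subst hij
      rw [if_pos rfl]
      have e3 : ∑ x : ι → Bool, (sg (x i) * g i x) * (sg (x i) * g i x) = N := by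
        rw [Finset.sum_congr rfl (fun x _ => show (sg (x i) * g i x) * (sg (x i) * g i x) = 1 by
          have h1 := sg_sq (x i)
          have h2 : g i x * g i x = 1 := sn_sq _
          calc (sg (x i) * g i x) * (sg (x i) * g i x) = (sg (x i) * sg (x i)) * (g i x * g i x) := by ring
            _ = 1 := by rw [h1, h2]; norm_num), hN, ← card_cube]
        simp
      rw [e3]
      have := inf_nonneg i (g i)
      omega
    · rw [if_neg hij, zero_add]
      exact cross hij (g i) (g j) (fun x => by simp only [hg, D_flip_self]) (fun _ => sn_pm _)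
        (fun _ => sn_pm _)
  have hTn : ∀ j ∈ S, 0 ≤ T j := fun j _ => Finset.sum_nonneg fun i _ => inf_nonneg i _
  -- `inf j (g j) = 0`, the other ones are those of a linear threshold function
  have hTj : ∀ j ∈ S, T j ^ 2 ≤ N ^ 2 * S.card := by
    intro j hj
    have h0 : T j = ∑ i ∈ S.erase j, inf i (g j) := by
      show ∑ i ∈ S, inf i (g j) = _
      rw [← Finset.add_sum_erase S _ hj]
      have : inf j (g j) = 0 := by
        unfold inf
        refine Finset.sum_eq_zero fun x _ => ?_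
        rw [if_neg]
        simp only [hg, D_flip_self, ne_eq, not_true_eq_false, not_false_eq_true]
      rw [this, zero_add]
    have h1 := lin (S.erase j) (D j F) (fun i hi => hF j hj i (Finset.mem_of_mem_erase hi)
      (Finset.ne_of_mem_erase hi).symm)
    rw [h4] at h1
    rw [h0]
    refine h1.trans ?_
    have : ((S.erase j).card : ℤ) ≤ S.card := by exact_mod_cast Finset.card_erase_le
    nlinarith [sq_nonneg N]
  have hTT : (∑ j ∈ S, T j) ^ 2 ≤ N ^ 2 * (S.card : ℤ) ^ 3 := by
    have h1 := sq_sum_le_card_mul_sum_sq (s := S) (f := T)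
    have h2 : ∑ j ∈ S, T j ^ 2 ≤ S.card * (N ^ 2 * S.card) := by
      calc ∑ j ∈ S, T j ^ 2 ≤ ∑ _j ∈ S, N ^ 2 * (S.card : ℤ) := Finset.sum_le_sum hTj
        _ = _ := by rw [Finset.sum_const, nsmul_eq_mul]
    have h3 : (0 : ℤ) ≤ S.card := by positivity
    calc (∑ j ∈ S, T j) ^ 2 ≤ S.card * ∑ j ∈ S, T j ^ 2 := h1
      _ ≤ S.card * (S.card * (N ^ 2 * S.card)) := mul_le_mul_of_nonneg_left h2 h3
      _ = _ := by ring
  rw [h16]
  set c : ℤ := (S.card : ℤ) with hc
  have hc0 : 0 ≤ c := by positivity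
  set U := ∑ j ∈ S, T j with hU
  have hU0 : 0 ≤ U := Finset.sum_nonneg hTn
  have c3 : A ^ 2 ≤ N * (N * c + U) := c1.trans (mul_le_mul_of_nonneg_left c2 hNpos.le)
  have c4 : (N * c + U) ^ 2 ≤ 4 * (N ^ 2 * c ^ 3) := by
    have h1 : (N * c) ^ 2 ≤ N ^ 2 * c ^ 3 := by
      rcases le_or_gt c 0 with h | h
      · have : c = 0 := le_antisymm h hc0
        rw [this]; simp
      · have : c ^ 2 ≤ c ^ 3 := pow_le_pow_right₀ (by omega) (by norm_num)
        nlinarith [sq_nonneg N]
    nlinarith [sq_nonneg (N * c - U)]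
  calc A ^ 4 = (A ^ 2) ^ 2 := by ring
    _ ≤ (N * (N * c + U)) ^ 2 := pow_le_pow_left₀ (sq_nonneg A) c3 2
    _ = N ^ 2 * (N * c + U) ^ 2 := by ring
    _ ≤ N ^ 2 * (4 * (N ^ 2 * c ^ 3)) := mul_le_mul_of_nonneg_left c4 (sq_nonneg N)
    _ = 4 * N ^ 4 * c ^ 3 := by ring

/-- the number of the points of the level set at which the bit `i` matters, for the level set -/
def bd (i : ι) (F : (ι → Bool) → ℤ) (c : ℤ) : ℤ :=
  ∑ x, if (F x = c ↔ F (flip i x) = c) then 0 else 1

theorem bd_le (i : ι) (F : (ι → Bool) → ℤ) (c : ℤ) :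
    bd i F c ≤ inf i (fun x => sn (F x - c)) + inf i (fun x => sn (F x - (c + 1))) := by
  unfold bd inf
  rw [← Finset.sum_add_distrib]
  refine Finset.sum_le_sum fun x _ => ?_
  beta_reduce
  generalize F x = u
  generalize F (flip i x) = v
  unfold sn
  split_ifs <;> simp_all <;> omega

theorem D_sub_const (i : ι) (F : (ι → Bool) → ℤ) (c : ℤ) : D i (fun x => F x - c) = D i F := by
  funext x; unfold D; ring

theorem pair_bd {u w : ι} (F : (ι → Bool) → ℤ) (c : ℤ)
    (h : ∀ x, ¬ (F x = c ∧ F (flip u x) = c ∧ F (flip w x) = c ∧ F (flip u (flip w x)) = c)) :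
    4 * ((Finset.univ.filter (fun x => F x = c)).card : ℤ) ≤ 3 * (bd u F c + bd w F c) := by
  classical
  set l : (ι → Bool) → ℤ := fun x => if F x = c then 1 else 0 with hl
  have e0 : ((Finset.univ.filter (fun x => F x = c)).card : ℤ) = ∑ x, l x := by
    rw [Finset.card_filter]; push_cast; rfl
  have e1 : ∑ x, l (flip u x) = ∑ x, l x := sum_flip u l
  have e2 : ∑ x, l (flip w x) = ∑ x, l x := sum_flip w l
  have e3 : ∑ x, l (flip u (flip w x)) = ∑ x, l x := by
    rw [sum_flip w (fun x => l (flip u x))]; exact e1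
  set b : ι → (ι → Bool) → ℤ := fun i x => if (F x = c ↔ F (flip i x) = c) then 0 else 1 with hb
  have f1 : ∑ x, b u (flip w x) = ∑ x, b u x := sum_flip w (b u)
  have f2 : ∑ x, b w (flip u x) = ∑ x, b w x := sum_flip u (b w)
  have key : ∑ x, 4 * (l x + l (flip u x) + l (flip w x) + l (flip u (flip w x))) ≤
      ∑ x, 6 * (b u x + b u (flip w x) + b w x + b w (flip u x)) := by
    refine Finset.sum_le_sum fun x _ => ?_
    have hx := h x
    simp only [hl, hb]
    rw [flip_comm w u x]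
    by_cases a1 : F x = c <;> by_cases a2 : F (flip u x) = c <;> by_cases a3 : F (flip w x) = c <;>
      by_cases a4 : F (flip u (flip w x)) = c <;> simp_all
  rw [← Finset.mul_sum, ← Finset.mul_sum, Finset.sum_add_distrib, Finset.sum_add_distrib,
    Finset.sum_add_distrib, Finset.sum_add_distrib, Finset.sum_add_distrib, Finset.sum_add_distrib,
    e1, e2, e3, f1, f2] at key
  rw [e0]
  show 4 * ∑ x, l x ≤ 3 * (∑ x, b u x + ∑ x, b w x)
  linarith

theorem DD_flip {u w : ι} (huw : u ≠ w) (F : (ι → Bool) → ℤ) (c : ℤ) (x : ι → Bool)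
    (h : D u (D w F) x ≠ 0) :
    ¬ (F x = c ∧ F (flip u x) = c ∧ F (flip w x) = c ∧ F (flip u (flip w x)) = c) := by
  rintro ⟨h1, h2, h3, h4⟩
  have e1 : D w F x = 0 := by
    have := D_sg w F x
    rw [h1, h3, sub_self] at this
    rcases sg_pm (x w) with hs | hs <;> rw [hs] at this <;> omega
  have e2 : D w F (flip u x) = 0 := by
    have := D_sg w F (flip u x)
    rw [h2, flip_comm w u x, h4, sub_self] at this
    rcases sg_pm (flip u x w) with hs | hs <;> rw [hs] at this <;> omega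
  apply h
  have := D_sg u (D w F) x
  rw [e1, e2, sub_self] at this
  rcases sg_pm (x u) with hs | hs <;> rw [hs] at this <;> omega

/-- Anticoncentration of a quadratic function on the cube. -/
theorem level (F : (ι → Bool) → ℤ) (c : ℤ) {ν : ℕ} (u w : Fin ν → ι)
    (hinj : Function.Injective (Sum.elim u w))
    (h3 : ∀ i j, i ≠ j → ∀ x y, D j (D i F) x = D j (D i F) y)
    (hne : ∀ k x, D (u k) (D (w k) F) x ≠ 0) :
    (ν : ℤ) * ((Finset.univ.filter (fun x => F x = c)).card : ℤ) ^ 4 ≤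
      162 * 16 ^ Fintype.card ι := by
  classical
  set L : ℤ := ((Finset.univ.filter (fun x => F x = c)).card : ℤ) with hL
  have hL0 : 0 ≤ L := by positivity
  set S : Finset ι := Finset.univ.image (Sum.elim u w) with hS
  have hcard : S.card = 2 * ν := by
    rw [hS, Finset.card_image_of_injective _ hinj, Finset.card_univ, Fintype.card_sum,
      Fintype.card_fin]
    ring
  have hsum : ∑ i ∈ S, bd i F c = ∑ k, (bd (u k) F c + bd (w k) F c) := by
    rw [hS, Finset.sum_image (fun a _ b _ hab => hinj hab), Fintype.sum_sum_type,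
      Finset.sum_add_distrib]
    rfl
  have h1 : 4 * (ν * L) ≤ 3 * ∑ i ∈ S, bd i F c := by
    rw [hsum, Finset.mul_sum]
    have : ∀ k : Fin ν, 4 * L ≤ 3 * (bd (u k) F c + bd (w k) F c) := by
      intro k
      have huw : u k ≠ w k := fun h => by
        have := hinj (a₁ := Sum.inl k) (a₂ := Sum.inr k) h
        cases this
      exact pair_bd F c (fun x => DD_flip huw F c x (hne k x))
    calc 4 * (ν * L) = ∑ _k : Fin ν, 4 * L := by
          rw [Finset.sum_const, Finset.card_univ, Fintype.card_fin, nsmul_eq_mul]; ring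
      _ ≤ _ := Finset.sum_le_sum fun k _ => this k
  set A := ∑ i ∈ S, inf i (fun x => sn (F x - c)) with hA
  set B := ∑ i ∈ S, inf i (fun x => sn (F x - (c + 1))) with hB
  have h2 : ∑ i ∈ S, bd i F c ≤ A + B := by
    rw [hA, hB, ← Finset.sum_add_distrib]
    exact Finset.sum_le_sum fun i _ => bd_le i F c
  have qA : A ^ 4 ≤ 4 * 16 ^ Fintype.card ι * (S.card : ℤ) ^ 3 := by
    refine quad S (fun x => F x - c) ?_
    intro i _ j _ hij x y
    rw [D_sub_const]
    exact h3 i j hij x y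
  have qB : B ^ 4 ≤ 4 * 16 ^ Fintype.card ι * (S.card : ℤ) ^ 3 := by
    refine quad S (fun x => F x - (c + 1)) ?_
    intro i _ j _ hij x y
    rw [D_sub_const]
    exact h3 i j hij x y
  have hA0 : 0 ≤ A := Finset.sum_nonneg fun i _ => inf_nonneg i _
  have hB0 : 0 ≤ B := Finset.sum_nonneg fun i _ => inf_nonneg i _
  have hAB : (A + B) ^ 4 ≤ 16 * (4 * 16 ^ Fintype.card ι * (S.card : ℤ) ^ 3) := by
    have e1 : (A + B) ^ 4 ≤ 8 * (A ^ 4 + B ^ 4) := by
      nlinarith [sq_nonneg (A - B), sq_nonneg (A + B), sq_nonneg (A ^ 2 - B ^ 2),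
        sq_nonneg (A ^ 2 + B ^ 2), mul_nonneg hA0 hB0, sq_nonneg ((A - B) * (A + B)),
        sq_nonneg ((A - B) ^ 2)]
    linarith
  have h5 : 4 * (ν * L) ≤ 3 * (A + B) := h1.trans (by linarith)
  have h6 : (4 * ((ν : ℤ) * L)) ^ 4 ≤ (3 * (A + B)) ^ 4 :=
    pow_le_pow_left₀ (by positivity) h5 4
  have hc : (S.card : ℤ) = 2 * ν := by rw [hcard]; push_cast; ring
  rw [hc] at hAB
  set E : ℤ := 16 ^ Fintype.card ι with hE
  have h7 : 256 * ((ν : ℤ) ^ 3 * (ν * L ^ 4)) ≤ 256 * ((ν : ℤ) ^ 3 * (162 * E)) := by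
    calc 256 * ((ν : ℤ) ^ 3 * (ν * L ^ 4)) = (4 * ((ν : ℤ) * L)) ^ 4 := by ring
      _ ≤ (3 * (A + B)) ^ 4 := h6
      _ = 81 * (A + B) ^ 4 := by ring
      _ ≤ 81 * (16 * (4 * E * (2 * (ν : ℤ)) ^ 3)) := by linarith
      _ = 256 * ((ν : ℤ) ^ 3 * (162 * E)) := by ring
  rcases Nat.eq_zero_or_pos ν with h0 | h0
  · rw [h0]; simp only [Nat.cast_zero, zero_mul]; positivity
  · have h8 : (0 : ℤ) < (ν : ℤ) ^ 3 := by positivity
    have h9 := le_of_mul_le_mul_left h7 (by norm_num)
    exact le_of_mul_le_mul_left h9 h8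

end Pool.Agent.R811.Cross
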