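import Pool.Agent.H832R3.VJ.Defs

set_option autoImplicit false

/-! Shadows of oriented knot diagrams and the diagrams with a given shadow. -/

namespace Pool.Agent.R811.Cross

open LaurentPolynomial Pool.Agent.H891R2.Jones Pool.Agent.H832R3.VJ

/-- the edge which follows the edge `e`, if the `2 n` edges of a closed curve with `n` double points
are numbered `0, …, 2 n - 1` in the order in which one runs through them -/
def next {n : ℕ} (e : Fin (2 * n)) : Fin (2 * n) :=
  ⟨(e + 1) % (2 * n), Nat.mod_lt _ (by have := e.2; omega)⟩

/-- The shadow of an oriented knot diagram with `n` crossings (a Gauss code): the edges of the curve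
are numbered `0, …, 2 n - 1` in the order in which one runs through them; the double point `i` is
passed between the edges `p i` and `next (p i)` and between the edges `q i` and `next (q i)`;
`left i = true`: the second strand crosses the first one from the right to the left. -/
structure Shadow (n : ℕ) where
  p : Fin n → Fin (2 * n)
  q : Fin n → Fin (2 * n)
  bij : Function.Bijective (Sum.elim p q)
  left : Fin n → Bool

namespace Shadow

variable {n : ℕ} (G : Shadow n)

/-- the crossing `i` in which the strand from `p i` to `next (p i)` is the lower one -/
def crossing (i : Fin n) : Crossing (Fin (2 * n)) :=
  if G.left i then ⟨G.p i, G.q i, next (G.p i), next (G.q i), true, true⟩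
  else ⟨G.p i, next (G.q i), next (G.p i), G.q i, true, false⟩

/-- the positive (`b = true`) or negative (`b = false`) crossing at the double point `i` -/
def choice (i : Fin n) (b : Bool) : Crossing (Fin (2 * n)) :=
  if b then positive (G.crossing i) else negative (G.crossing i)

/-- the knot diagram with the shadow `G` in which the crossing `i` is positive if `s i = true` and
negative if `s i = false` -/
def diagram (s : Fin n → Bool) : Diagram (Fin (2 * n)) :=
  ⟨[], (List.finRange n).map (fun i => G.choice i (s i))⟩

/-- `x` lies strictly between `a` and `b` -/
def Between (a b x : ℕ) : Prop := min a b < x ∧ x < max a b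

/-- the double points `i` and `j` are interlaced: running through the curve one meets `j` exactly once
between the two passages through `i` -/
def Interlaced (i j : Fin n) : Prop :=
  ¬ (Between (G.p i) (G.q i) (G.p j) ↔ Between (G.p i) (G.q i) (G.q j))

end Shadow

end Pool.Agent.R811.Cross
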