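import Pool.Agent.R811.Cross.Skein

set_option autoImplicit false

/-! Gluing the two end points of an open diagram does not change the normalised bracket. -/

namespace Pool.Agent.R811.Cross

open Finset LaurentPolynomial Pool.Agent.H891R2.Jones Pool.Agent.H832R3.VJ

variable {P Q : Type}

/-- every marked point except for `a`, `b` is an end of an even number of pieces -/
def TwoEnds (a b : P) (arcs : List (P × P)) (cr : List (Crossing P)) : Prop :=
  ∀ c : P → ZMod 2, (arcs.map (fun x => c x.1 + c x.2)).sum +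
    (cr.map (fun x => c x.a + c x.b + c x.c + c x.d)).sum = c a + c b

theorem ends_joined (a b : P) (arcs : List (P × P)) (h : TwoEnds a b arcs []) :
    Relation.EqvGen (fun p q => (p, q) ∈ arcs) a b := by
  classical
  let c : P → ZMod 2 := fun x => if Relation.EqvGen (fun p q => (p, q) ∈ arcs) a x then 1 else 0
  have h1 := h c
  have h2 : (arcs.map (fun x => c x.1 + c x.2)).sum = 0 := by
    apply List.sum_eq_zero
    intro z hz
    obtain ⟨x, hx, rfl⟩ := List.mem_map.1 hz
    have hx' : (x.1, x.2) ∈ arcs := hx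
    have : Relation.EqvGen (fun p q => (p, q) ∈ arcs) a x.1 ↔
        Relation.EqvGen (fun p q => (p, q) ∈ arcs) a x.2 :=
      ⟨fun h => h.trans _ _ _ (.rel _ _ hx'), fun h => h.trans _ _ _ (.symm _ _ (.rel _ _ hx'))⟩
    have e : c x.1 = c x.2 := by simp only [c, this]
    rw [e]
    exact CharTwo.add_self_eq_zero _
  rw [h2] at h1
  simp only [List.map_nil, List.sum_nil, add_zero] at h1
  have ha : c a = 1 := by simp only [c, Relation.EqvGen.refl, if_true]
  by_contra hb
  have hb' : c b = 0 := by simp only [c, if_neg hb]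
  rw [ha, hb'] at h1
  exact absurd h1 (by decide)

theorem loops_glue (f : P → Q) (σ : Q → P) (hσ : ∀ q, f (σ q) = q) (a b : P)
    (hab : ∀ x, σ (f x) = x ∨ (x = b ∧ σ (f x) = a)) (arcs : List (P × P)) (h : TwoEnds a b arcs []) :
    Nat.card (Quot (fun p q => (p, q) ∈ arcs)) =
      Nat.card (Quot (fun p q => (p, q) ∈ arcs.map (Prod.map f f))) := by
  have hj := ends_joined a b arcs h
  have hx : ∀ x, Quot.mk (fun p q => (p, q) ∈ arcs) (σ (f x)) = Quot.mk (fun p q => (p, q) ∈ arcs) x := by
    intro x
    rcases hab x with h1 | ⟨h1, h2⟩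
    · rw [h1]
    · rw [h2, h1]
      exact Quot.eqvGen_sound hj
  refine Nat.card_congr
    { toFun := Quot.map f (fun p q hpq => List.mem_map.2 ⟨(p, q), hpq, rfl⟩)
      invFun := Quot.lift (fun q => Quot.mk _ (σ q)) ?_
      left_inv := ?_
      right_inv := ?_ }
  · intro p q hpq
    obtain ⟨x, hx1, hx2⟩ := List.mem_map.1 hpq
    have e1 : f x.1 = p := congrArg Prod.fst hx2
    have e2 : f x.2 = q := congrArg Prod.snd hx2
    have hxm : (x.1, x.2) ∈ arcs := hx1
    rw [← e1, ← e2, hx, hx]
    exact Quot.sound hxm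
  · rintro ⟨x⟩
    exact hx x
  · rintro ⟨q⟩
    exact congrArg (Quot.mk _) (hσ q)

theorem fPoly_glue (f : P → Q) (σ : Q → P) (hσ : ∀ q, f (σ q) = q) (a b : P)
    (hab : ∀ x, σ (f x) = x ∨ (x = b ∧ σ (f x) = a)) (cr : List (Crossing P)) :
    ∀ (arcs : List (P × P)), TwoEnds a b arcs cr →
      (⟨arcs, cr⟩ : Diagram P).fPoly =
        (⟨arcs.map (Prod.map f f), cr.map (Crossing.map f)⟩ : Diagram Q).fPoly := by
  induction cr with
  | nil =>
    intro arcs h
    have h1 := loops_glue f σ hσ a b hab arcs h
    have e1 : ∀ (R : Type) (l : List (R × R)) (s : Fin (⟨l, []⟩ : Diagram R).crossings.length → Bool),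
        (⟨l, []⟩ : Diagram R).loops s = Nat.card (Quot (fun p q => (p, q) ∈ l)) := by
      intro R l s
      unfold Diagram.loops
      congr 2
      funext p q
      unfold Diagram.Joined
      simp only [eq_iff_iff, or_iff_left_iff_imp]
      rintro ⟨i, -⟩
      exact i.elim0
    unfold Diagram.fPoly Diagram.bracket Diagram.writhe
    simp only [List.map_nil]
    congr 1
    refine Finset.sum_congr rfl fun s _ => ?_
    rw [e1, h1, ← e1 Q (arcs.map (Prod.map f f)) s]
    rfl
  | cons x cr ih =>
    intro arcs h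
    rw [List.map_cons, V6b.fPoly_cons, V6b.fPoly_cons]
    have i1 := ih ((x.a, x.b) :: (x.c, x.d) :: arcs) (by
      intro c
      have := h c
      simp only [List.map_cons, List.sum_cons] at this ⊢
      rw [← this]; ring)
    have i2 := ih ((x.b, x.c) :: (x.d, x.a) :: arcs) (by
      intro c
      have := h c
      simp only [List.map_cons, List.sum_cons] at this ⊢
      rw [← this]; ring)
    rw [i1, i2]
    rfl

end Pool.Agent.R811.Cross
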