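import Pool.Agent.R811.Cross.Skein

set_option autoImplicit false

/-! Crossing changes in a knot diagram. -/

namespace Pool.Agent.R811.Cross

open Finset LaurentPolynomial Pool.Agent.H891R2.Jones Pool.Agent.H832R3.VJ
open Pool.Agent.H953R3.Q2 (mul0)

variable {n : ℕ} (G : Shadow n)

theorem choice_iff (c : Fin (2 * n) → Fin 2) (k : Fin n) (b : Bool) :
    (c (G.choice k b).a ≠ c (G.choice k b).c ∧ c (G.choice k b).b ≠ c (G.choice k b).d) ↔
      (c (G.p k) ≠ c (next (G.p k)) ∧ c (G.q k) ≠ c (next (G.q k))) := by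
  unfold Shadow.choice positive negative Shadow.crossing switch Crossing.sign
  cases G.left k <;> cases b <;> simp [eq_comm] <;> tauto

theorem arcs_iff (c : Fin (2 * n) → Fin 2) (k : Fin n) :
    (∀ x ∈ sm (G.crossing k), c x.1 = c x.2) ↔
      (c (G.p k) = c (next (G.q k)) ∧ c (G.q k) = c (next (G.p k))) := by
  unfold sm positive Shadow.crossing switch Crossing.sign
  cases G.left k <;> simp [eq_comm] <;> tauto

/-- the other crossings -/
def rest (l : List (Fin n)) (s : Fin n → Bool) : List (Crossing (Fin (2 * n))) :=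
  ((List.finRange n).filter (fun k => k ∉ l)).map (fun k => G.choice k (s k))

theorem mem_rest (l : List (Fin n)) (s : Fin n → Bool) (x : Crossing (Fin (2 * n))) :
    x ∈ rest G l s ↔ ∃ k, k ∉ l ∧ G.choice k (s k) = x := by
  unfold rest
  simp [List.mem_map, List.mem_filter]

theorem rest_congr (l : List (Fin n)) (s s' : Fin n → Bool) (h : ∀ k, k ∉ l → s k = s' k) :
    rest G l s = rest G l s' := by
  unfold rest
  apply List.map_congr_left
  intro k hk
  rw [h k (by simpa using (List.mem_filter.1 hk).2)]

theorem diagram_eq (l : List (Fin n)) (hl : l.Nodup) (s : Fin n → Bool) :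
    (G.diagram s).fPoly =
      (⟨[], l.map (fun k => G.choice k (s k)) ++ rest G l s⟩ : Diagram (Fin (2 * n))).fPoly := by
  unfold Shadow.diagram
  apply V6b.fPoly_congr
  · intro p q; exact Iff.rfl
  · unfold rest
    rw [← List.map_append]
    apply List.Perm.map
    rw [List.perm_ext_iff_of_nodup (List.nodup_finRange n)]
    · intro a
      simp only [List.mem_finRange, List.mem_append, List.mem_filter, true_and, decide_eq_true_eq, true_iff]
      tauto
    · apply List.Nodup.append hl ((List.nodup_finRange n).filter _)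
      intro a ha hb
      have := (List.mem_filter.1 hb).2
      simp only [decide_eq_true_eq] at this
      exact this ha

theorem ne_of_interlaced {i j : Fin n} (h : G.Interlaced i j) : i ≠ j := by
  rintro rfl
  apply h
  unfold Shadow.Between
  constructor <;> intro h <;> omega

theorem p_ne {i j : Fin n} (h : i ≠ j) : G.p i ≠ G.p j := fun e => h (by
  have := G.bij.1 (a₁ := Sum.inl i) (a₂ := Sum.inl j) e
  exact Sum.inl_injective this)

theorem q_ne {i j : Fin n} (h : i ≠ j) : G.q i ≠ G.q j := fun e => h (by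
  have := G.bij.1 (a₁ := Sum.inr i) (a₂ := Sum.inr j) e
  exact Sum.inr_injective this)

theorem pq_ne (i j : Fin n) : G.p i ≠ G.q j := fun e => by
  have := G.bij.1 (a₁ := Sum.inl i) (a₂ := Sum.inr j) e
  cases this

theorem fits_iff (i j : Fin n) (s : Fin n → Bool) (c : Fin (2 * n) → Fin 2) :
    Fits c (sm (G.crossing j) ++ (sm (G.crossing i) ++ [])) (rest G [i, j] s) ↔
      V c (G.p i) (G.q i) (G.p j) (G.q j) := by
  have hA : (∀ x ∈ sm (G.crossing j) ++ (sm (G.crossing i) ++ []), c x.1 = c x.2) ↔
      (c (G.p j) = c (next (G.q j)) ∧ c (G.q j) = c (next (G.p j))) ∧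
      (c (G.p i) = c (next (G.q i)) ∧ c (G.q i) = c (next (G.p i))) := by
    rw [← arcs_iff, ← arcs_iff]
    simp only [List.append_nil, List.mem_append, or_imp, forall_and]
  unfold Fits V
  rw [hA]
  constructor
  · rintro ⟨⟨⟨h1, h2⟩, h3, h4⟩, h5⟩
    refine ⟨?_, h3, h4, h1, h2⟩
    intro e a1 a2 a3 a4
    obtain ⟨z, hz⟩ := G.bij.2 e
    rcases z with k | k
    · have hz' : G.p k = e := hz
      have hki : k ≠ i := fun h => a1 (by rw [← hz', h])
      have hkj : k ≠ j := fun h => a3 (by rw [← hz', h])
      have h6 := h5 (G.choice k (s k)) ((mem_rest G _ s _).2 ⟨k, by simp [hki, hkj], rfl⟩)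
      rw [choice_iff, hz'] at h6
      exact h6.1
    · have hz' : G.q k = e := hz
      have hki : k ≠ i := fun h => a2 (by rw [← hz', h])
      have hkj : k ≠ j := fun h => a4 (by rw [← hz', h])
      have h6 := h5 (G.choice k (s k)) ((mem_rest G _ s _).2 ⟨k, by simp [hki, hkj], rfl⟩)
      rw [choice_iff, hz'] at h6
      exact h6.2
  · rintro ⟨h0, h1, h2, h3, h4⟩
    refine ⟨⟨⟨h3, h4⟩, h1, h2⟩, ?_⟩
    intro x hx
    obtain ⟨k, hk, rfl⟩ := (mem_rest G _ s _).1 hx
    simp only [List.mem_cons, List.not_mem_nil, or_false, not_or] at hk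
    rw [choice_iff]
    exact ⟨h0 _ (p_ne G hk.1) (pq_ne G _ _) (p_ne G hk.2) (pq_ne G _ _),
      h0 _ (pq_ne G _ _).symm (q_ne G hk.1) (pq_ne G _ _).symm (q_ne G hk.2)⟩

theorem m0_fPoly {P : Type} (D : Diagram P) (h : Odd (moment 0 D.bracket)) : Odd (moment 0 D.fPoly) := by
  unfold Diagram.fPoly
  rw [mul0, mul0, m_T, pow_zero, mul_one]
  have h1 : moment 0 (if Even D.writhe then (1 : ℤ[T;T⁻¹]) else -1) = 1 ∨
      moment 0 (if Even D.writhe then (1 : ℤ[T;T⁻¹]) else -1) = -1 := by
    have e : moment 0 (1 : ℤ[T;T⁻¹]) = 1 := by rw [← T_zero, m_T]; simp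
    split_ifs
    · left; exact e
    · right; rw [← zero_sub, m_sub, e, ← V7.momH_apply, map_zero]; norm_num
  rcases h1 with h1 | h1 <;> rw [h1]
  · rw [one_mul]; exact h
  · rw [neg_one_mul]; exact h.neg

/-- the value at `1` of the polynomial of the diagram with two interlaced crossings smoothed is odd -/
theorem odd00 {i j : Fin n} (h : G.Interlaced i j) (s : Fin n → Bool) :
    Odd (moment 0 (⟨sm (G.crossing j) ++ (sm (G.crossing i) ++ []), rest G [i, j] s⟩ :
      Diagram (Fin (2 * n))).fPoly) := by
  have hij := ne_of_interlaced G h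
  apply m0_fPoly
  have : Nonempty (Fin (2 * n)) := ⟨G.p i⟩
  obtain ⟨c, hc, hu⟩ := exists_V (G.p i) (G.q i) (G.p j) (G.q j) (p_ne G hij) (pq_ne G _ _)
    (pq_ne G _ _).symm (q_ne G hij) h
  exact odd_bracket _ c ((fits_iff G i j s c).2 hc) (fun d hd => hu d ((fits_iff G i j s d).1 hd))

/-- the function on the cube -/
noncomputable def F (s : Fin n → Bool) : ℤ := moment 2 (G.diagram s).fPoly

theorem F2 {i j : Fin n} (hij : i ≠ j) (s : Fin n → Bool) (a b : Bool) :
    F G (Function.update (Function.update s j b) i a) =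
      moment 2 (⟨[], G.choice i a :: G.choice j b :: rest G [i, j] s⟩ : Diagram (Fin (2 * n))).fPoly := by
  unfold F
  rw [diagram_eq G [i, j] (by simp [hij])]
  rw [rest_congr G [i, j] (Function.update (Function.update s j b) i a) s]
  · simp [hij.symm]
  · intro k hk
    simp only [List.mem_cons, List.not_mem_nil, or_false, not_or] at hk
    simp [hk.1, hk.2]

theorem F3 {i j k : Fin n} (hij : i ≠ j) (hik : i ≠ k) (hjk : j ≠ k) (s : Fin n → Bool) (a b c : Bool) :
    F G (Function.update (Function.update (Function.update s k c) j b) i a) =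
      moment 2 (⟨[], G.choice i a :: G.choice j b :: G.choice k c :: rest G [i, j, k] s⟩ :
        Diagram (Fin (2 * n))).fPoly := by
  unfold F
  rw [diagram_eq G [i, j, k] (by simp [hij, hik, hjk])]
  rw [rest_congr G [i, j, k] (Function.update (Function.update (Function.update s k c) j b) i a) s]
  · simp [hij.symm, hik.symm, hjk.symm]
  · intro l hl
    simp only [List.mem_cons, List.not_mem_nil, or_false, not_or] at hl
    simp [hl.1, hl.2.1, hl.2.2]

theorem D2 {i j : Fin n} (h : G.Interlaced i j) (s : Fin n → Bool) : D j (D i (F G)) s ≠ 0 := by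
  have hij := ne_of_interlaced G h
  have h1 := skein2_m2 [] (G.crossing i) (G.crossing j) (rest G [i, j] s) (odd00 G h s)
  unfold D
  rw [F2 G hij, F2 G hij, F2 G hij, F2 G hij]
  intro h0
  apply h1
  have e : ∀ a b : Bool, (⟨[], G.choice i a :: G.choice j b :: rest G [i, j] s⟩ :
      Diagram (Fin (2 * n))).fPoly = (⟨[], (if a then positive (G.crossing i) else negative (G.crossing i)) ::
        (if b then positive (G.crossing j) else negative (G.crossing j)) :: rest G [i, j] s⟩ :
      Diagram (Fin (2 * n))).fPoly := fun a b => rfl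
  have e1 := e true true
  have e2 := e true false
  have e3 := e false true
  have e4 := e false false
  simp only [if_true, if_false, Bool.false_eq_true] at e1 e2 e3 e4
  rw [e1, e2, e3, e4] at h0
  linarith

theorem D3 {i j k : Fin n} (hij : i ≠ j) (hik : i ≠ k) (hjk : j ≠ k) (s : Fin n → Bool) :
    D k (D j (D i (F G))) s = 0 := by
  have h1 : moment 2 (singF [] (rest G [i, j, k] s) [G.crossing k, G.crossing j, G.crossing i]) = 0 :=
    moment_of_dvd 2 _ (singF_dvd [] (rest G [i, j, k] s) [G.crossing k, G.crossing j, G.crossing i])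
  unfold D
  rw [F3 G hij hik hjk, F3 G hij hik hjk, F3 G hij hik hjk, F3 G hij hik hjk, F3 G hij hik hjk,
    F3 G hij hik hjk, F3 G hij hik hjk, F3 G hij hik hjk]
  simp only [singF, m_sub] at h1
  simp only [Shadow.choice, if_true, if_false, Bool.false_eq_true]
  linarith

theorem D_self (i : Fin n) (H : (Fin n → Bool) → ℤ) (s : Fin n → Bool) : D i (D i H) s = 0 := by
  unfold D
  simp

theorem D_comm {i j : Fin n} (hij : i ≠ j) (H : (Fin n → Bool) → ℤ) : D i (D j H) = D j (D i H) := by
  funext s
  unfold D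
  simp only [Function.update_comm hij]
  ring

theorem const_of_D (H : (Fin n → Bool) → ℤ) (h : ∀ k s, D k H s = 0) (x y : Fin n → Bool) : H x = H y := by
  have h1 : ∀ k s b, H (Function.update s k b) = H s := by
    intro k s b
    have h2 := h k s
    unfold D at h2
    have h3 : H (Function.update s k (s k)) = H s := by rw [Function.update_eq_self]
    rcases Bool.eq_false_or_eq_true (s k) with hs | hs <;> rw [hs] at h3 <;> cases b <;> omega
  have key : ∀ S : Finset (Fin n), H (fun k => if k ∈ S then y k else x k) = H x := by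
    intro S
    induction S using Finset.induction_on with
    | empty => simp
    | insert a S ha ih =>
      rw [← ih, ← h1 a (fun k => if k ∈ S then y k else x k) (y a)]
      congr 1
      funext k
      by_cases hk : k = a
      · subst hk; simp
      · simp [hk]
  have := key Finset.univ
  simp only [Finset.mem_univ, if_true] at this
  exact this.symm

theorem D2_const {i j : Fin n} (hij : i ≠ j) (x y : Fin n → Bool) :
    D j (D i (F G)) x = D j (D i (F G)) y := by
  apply const_of_D
  intro k s
  by_cases hj : k = j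
  · subst hj; exact D_self k _ s
  by_cases hi : k = i
  · subst hi
    rw [D_comm hij.symm]
    exact D_self k _ s
  exact D3 G hij (Ne.symm hi) (Ne.symm hj) s

theorem four (p q r t : Prop) [Decidable p] [Decidable q] [Decidable r] [Decidable t]
    (h : ¬ (p ∧ q ∧ r ∧ t)) : (if p then (1 : ℤ) else 0) + (if q then 1 else 0) +
      (if r then 1 else 0) + (if t then 1 else 0) ≤ 3 := by
  by_cases hp : p
  · by_cases hq : q
    · by_cases hr : r
      · by_cases ht : t
        · exact absurd ⟨hp, hq, hr, ht⟩ h
        · rw [if_pos hp, if_pos hq, if_pos hr, if_neg ht]; norm_num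
      · rw [if_pos hp, if_pos hq, if_neg hr]; split_ifs <;> norm_num
    · rw [if_pos hp, if_neg hq]; split_ifs <;> norm_num
  · rw [if_neg hp]; split_ifs <;> norm_num

theorem upd_cases (x : Fin n → Bool) (i : Fin n) (b : Bool) :
    Function.update x i b = x ∨ Function.update x i b = flip i x := by
  by_cases hb : b = x i
  · left; rw [hb]; exact Function.update_eq_self i x
  · right; unfold flip
    have : b = !(x i) := by
      revert hb
      cases b <;> cases x i <;> decide
    rw [this]

/-- one quarter -/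
theorem quarter {i j : Fin n} (h : G.Interlaced i j) (g : ℤ[T;T⁻¹]) [DecidablePred (fun s : Fin n → Bool =>
      (2 : ℤ[T;T⁻¹]) ∣ (G.diagram s).fPoly - g)] :
    4 * (Finset.univ.filter (fun s : Fin n → Bool => (2 : ℤ[T;T⁻¹]) ∣ (G.diagram s).fPoly - g)).card ≤
      3 * 2 ^ n := by
  classical
  have hij := ne_of_interlaced G h
  set l : (Fin n → Bool) → ℤ := fun s => if (2 : ℤ[T;T⁻¹]) ∣ (G.diagram s).fPoly - g then 1 else 0 with hl
  have e0 : ((Finset.univ.filter (fun s : Fin n → Bool => (2 : ℤ[T;T⁻¹]) ∣ (G.diagram s).fPoly - g)).card : ℤ) =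
      ∑ s, l s := by
    rw [Finset.card_filter]; push_cast; rfl
  have e1 : ∑ x, l (flip i x) = ∑ x, l x := sum_flip i l
  have e2 : ∑ x, l (flip j x) = ∑ x, l x := sum_flip j l
  have e3 : ∑ x, l (flip i (flip j x)) = ∑ x, l x := by
    rw [sum_flip j (fun x => l (flip i x))]; exact e1
  have key : ∑ x, (l x + l (flip i x) + l (flip j x) + l (flip i (flip j x))) ≤
      ∑ _x : Fin n → Bool, (3 : ℤ) := by
    refine Finset.sum_le_sum fun x _ => ?_
    have hx : ¬ ((2 : ℤ[T;T⁻¹]) ∣ (G.diagram x).fPoly - g ∧
        (2 : ℤ[T;T⁻¹]) ∣ (G.diagram (flip i x)).fPoly - g ∧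
        (2 : ℤ[T;T⁻¹]) ∣ (G.diagram (flip j x)).fPoly - g ∧
        (2 : ℤ[T;T⁻¹]) ∣ (G.diagram (flip i (flip j x))).fPoly - g) := by
      rintro ⟨a1, a2, a3, a4⟩
      have hall : ∀ a b : Bool, (2 : ℤ[T;T⁻¹]) ∣
          (⟨[], G.choice i a :: G.choice j b :: rest G [i, j] x⟩ : Diagram (Fin (2 * n))).fPoly - g := by
        intro a b
        have hd : (⟨[], G.choice i a :: G.choice j b :: rest G [i, j] x⟩ : Diagram (Fin (2 * n))).fPoly =
            (G.diagram (Function.update (Function.update x j b) i a)).fPoly := by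
          rw [diagram_eq G [i, j] (by simp [hij])]
          rw [rest_congr G [i, j] (Function.update (Function.update x j b) i a) x]
          · simp [hij.symm]
          · intro k hk
            simp only [List.mem_cons, List.not_mem_nil, or_false, not_or] at hk
            simp [hk.1, hk.2]
        rw [hd]
        rcases upd_cases x j b with hb | hb
        · rw [hb]
          rcases upd_cases x i a with ha | ha
          · rw [ha]; exact a1
          · rw [ha]; exact a2
        · rw [hb]
          rcases upd_cases (flip j x) i a with ha | ha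
          · rw [ha]; exact a3
          · rw [ha]; exact a4
      have hodd := odd00 G h x
      have heven := skein2_mod [] (G.crossing i) (G.crossing j) (rest G [i, j] x) g
        (hall true true) (hall true false) (hall false true) (hall false false)
      exact (Int.not_even_iff_odd.2 hodd) heven
    exact four _ _ _ _ hx
  rw [Finset.sum_add_distrib, Finset.sum_add_distrib, Finset.sum_add_distrib, e1, e2, e3, ← e0] at key
  rw [Finset.sum_const, nsmul_eq_mul, card_cube, Fintype.card_fin] at key
  have : (4 * (Finset.univ.filter (fun s : Fin n → Bool =>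
      (2 : ℤ[T;T⁻¹]) ∣ (G.diagram s).fPoly - g)).card : ℤ) ≤ 3 * 2 ^ n := by linarith
  exact_mod_cast this

theorem anti {ν : ℕ} (u w : Fin ν → Fin n) (hinj : Function.Injective (Sum.elim u w))
    (h : ∀ k, G.Interlaced (u k) (w k)) (g : ℤ[T;T⁻¹]) [DecidablePred (fun s : Fin n → Bool =>
      (T 1 - 1 : ℤ[T;T⁻¹]) ^ 3 ∣ (G.diagram s).fPoly - g)] :
    ν * (Finset.univ.filter (fun s : Fin n → Bool =>
      (T 1 - 1 : ℤ[T;T⁻¹]) ^ 3 ∣ (G.diagram s).fPoly - g)).card ^ 4 ≤ 162 * 16 ^ n := by
  classical
  have h1 := level (F G) (moment 2 g) u w hinj (fun i j hij x y => D2_const G hij x y)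
    (fun k x => by
      have hne := (ne_of_interlaced G (h k)).symm
      rw [D_comm hne.symm]
      exact D2 G (h k) x)
  rw [Fintype.card_fin] at h1
  have hsub : (Finset.univ.filter (fun s : Fin n → Bool =>
      (T 1 - 1 : ℤ[T;T⁻¹]) ^ 3 ∣ (G.diagram s).fPoly - g)).card ≤
      (Finset.univ.filter (fun s => F G s = moment 2 g)).card := by
    apply Finset.card_le_card
    intro s hs
    rw [Finset.mem_filter] at hs ⊢
    refine ⟨hs.1, ?_⟩
    have h2 := moment_of_dvd 2 _ hs.2
    rw [m_sub] at h2
    unfold F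
    omega
  have h3 : ν * (Finset.univ.filter (fun s => F G s = moment 2 g)).card ^ 4 ≤ 162 * 16 ^ n := by
    exact_mod_cast h1
  exact (Nat.mul_le_mul_left ν (Nat.pow_le_pow_left hsub 4)).trans h3

end Pool.Agent.R811.Cross
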