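import Pool.Agent.H891R2.DS.Final

set_option autoImplicit false

/-! One-sided dominated states and the writhe. -/

namespace Pool.Agent.R811.OneSide

open Finset LaurentPolynomial Pool.Agent.H891R2.Jones Pool.Agent.H891R2.MT Pool.Agent.H891R2.DS

variable {k : ℕ}

/-- `P` is the set of the positive crossings of the diagram `D` (whose crossings are numbered by the edges
of the graph) -/
def IsPositiveSet {Q : Type} (D : Diagram Q) (P : Finset (Fin k)) : Prop :=
  D.crossings.map Crossing.sign = (List.finRange k).map (fun e => if e ∈ P then 1 else -1)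

/-- the number of independent cycles of the state graph: the number of crossings minus the number of circles
plus one -/
noncomputable def betti (Γ : Ribbon k) (S : Finset (Fin k)) : ℤ := k + 1 - (stateGraph Γ S).verts

theorem writhe_eq {Q : Type} (D : Diagram Q) (P : Finset (Fin k)) (h : IsPositiveSet D P) :
    D.writhe = 2 * P.card - k := by
  unfold Diagram.writhe
  rw [h, ← List.ofFn_eq_map, List.sum_ofFn]
  have : ∀ e : Fin k, (if e ∈ P then (1 : ℤ) else -1) = 2 * (if e ∈ P then 1 else 0) - 1 := by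
    intro e; split_ifs <;> norm_num
  rw [Finset.sum_congr rfl (fun e _ => this e), Finset.sum_sub_distrib, ← Finset.mul_sum]
  simp

theorem coeff_f {Γ : Ribbon k} {R : Finset (Fin k)} (D : Diagram (Ribbon.Pt (sg R)))
    (hD : Orients D (Γ.link (sg R))) (hk : 0 < k) (j : ℤ) : 
    D.fPoly.coeff j = (if Even D.writhe then 1 else -1) * 
      ((Γ.link (sg R)).std.bracket).coeff (j - (-3 * D.writhe)) := by
  have hP : Nonempty (Ribbon.Pt (sg R)) := ⟨⟨⟨0, hk⟩, 0, true⟩⟩
  have hbr : D.bracket = (Γ.link (sg R)).std.bracket := Pool.Agent.H891R2.MT.T6.bracket_orients D _ hD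
  unfold Diagram.fPoly
  rw [hbr]
  by_cases hw : Even D.writhe
  · rw [if_pos hw, if_pos hw, one_mul, one_mul, Fin'.coeff_T_mul]
  · rw [if_neg hw, if_neg hw]
    have e0 : (-1 : ℤ[T;T⁻¹]) * T (-3 * D.writhe) * (Γ.link (sg R)).std.bracket = 
        -(T (-3 * D.writhe) * (Γ.link (sg R)).std.bracket) := by ring
    rw [e0]
    have : (-(T (-3 * D.writhe) * (Γ.link (sg R)).std.bracket)).coeff j = 
        -((T (-3 * D.writhe) * (Γ.link (sg R)).std.bracket).coeff j) := rfl
    rw [this, Fin'.coeff_T_mul, neg_one_mul]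

/-- the largest exponent for a state of the second kind -/
theorem upper (Γ : Ribbon k) (hΓ : Γ.Planar) (hk : 0 < k) (R S P : Finset (Fin k))
    (h : Dom (stateGraph Γ S) (Asm R S)ᶜ) (D : Diagram (Ribbon.Pt (sg R)))
    (hD : Orients D (Γ.link (sg R))) (hP : IsPositiveSet D P) :
    (∀ j, D.fPoly.coeff j ≠ 0 → j ≤ -2 * betti Γ S + 6 * ((Pᶜ.card : ℤ) - ((Asm R S)ᶜ).card)) ∧
      |D.fPoly.coeff (-2 * betti Γ S + 6 * ((Pᶜ.card : ℤ) - ((Asm R S)ᶜ).card))| = 1 := by
  obtain ⟨b1, b2⟩ := Fin'.side Γ hΓ hk S _ h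
  have hw := writhe_eq D P hP
  have hc : (Pᶜ.card : ℤ) = k - P.card := by
    rw [Finset.card_compl, Fintype.card_fin, Nat.cast_sub]
    simpa using Finset.card_le_univ P
  constructor
  · intro j hj
    rw [coeff_f D hD hk] at hj
    have h4 := right_ne_zero_of_mul hj
    rw [bracket_state' Γ hk R S] at h4
    have h6 := b1 _ h4
    unfold betti
    rw [hc]
    rw [hw] at h6
    linarith
  · rw [coeff_f D hD hk, abs_mul, bracket_state' Γ hk R S]
    have hs1 : |(if Even D.writhe then (1 : ℤ) else -1)| = 1 := by split_ifs <;> simp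
    rw [hs1, one_mul]
    have e : -((-2 * betti Γ S + 6 * ((Pᶜ.card : ℤ) - ((Asm R S)ᶜ).card)) - (-3 * D.writhe)) =
        6 * ((Asm R S)ᶜ).card - k - 2 * (stateGraph Γ S).verts + 2 := by
      unfold betti; rw [hc, hw]; ring
    rw [e]
    exact b2

/-- the smallest exponent for a state of the first kind -/
theorem lower (Γ : Ribbon k) (hΓ : Γ.Planar) (hk : 0 < k) (R S P : Finset (Fin k))
    (h : Dom (stateGraph Γ S) (Asm R S)) (D : Diagram (Ribbon.Pt (sg R)))
    (hD : Orients D (Γ.link (sg R))) (hP : IsPositiveSet D P) :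
    (∀ j, D.fPoly.coeff j ≠ 0 → 2 * betti Γ S - 6 * ((P.card : ℤ) - (Asm R S).card) ≤ j) ∧
      |D.fPoly.coeff (2 * betti Γ S - 6 * ((P.card : ℤ) - (Asm R S).card))| = 1 := by
  obtain ⟨b1, b2⟩ := Fin'.side Γ hΓ hk S _ h
  have hw := writhe_eq D P hP
  constructor
  · intro j hj
    rw [coeff_f D hD hk] at hj
    have h4 := right_ne_zero_of_mul hj
    rw [bracket_state Γ hk R S] at h4
    have h6 := b1 _ h4
    unfold betti
    rw [hw] at h6
    linarith
  · rw [coeff_f D hD hk, abs_mul, bracket_state Γ hk R S]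
    have hs1 : |(if Even D.writhe then (1 : ℤ) else -1)| = 1 := by split_ifs <;> simp
    rw [hs1, one_mul]
    have e : (2 * betti Γ S - 6 * ((P.card : ℤ) - (Asm R S).card)) - (-3 * D.writhe) =
        6 * (Asm R S).card - k - 2 * (stateGraph Γ S).verts + 2 := by
      unfold betti; rw [hw]; ring
    rw [e]
    exact b2

theorem coeff_one (f : ℤ[T;T⁻¹]) (hf : f = 1) (j : ℤ) (h : |f.coeff j| = 1) : j = 0 := by
  by_contra h0
  rw [hf, ← T_zero] at h
  rw [show (T 0 : ℤ[T;T⁻¹]).coeff j = if (0 : ℤ) = j then 1 else 0 from Finsupp.single_apply,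
    if_neg (fun h => h0 h.symm)] at h
  norm_num at h

/-- a connected diagram with a crossing which is not nugatory has a cycle in every state graph -/
theorem betti_pos (Γ : Ribbon k) (hΓ : Γ.Planar) (S : Finset (Fin k)) (e : Fin k)
    (he : ¬ Nugatory Γ e) : 0 < betti Γ S := by
  unfold Nugatory at he
  push Not at he
  have hc1 := Nug.erase_le Γ hΓ.1 e
  have hc2 := Nug.erase_le _ (planar_dual Γ hΓ).1 e
  have h1 : (stateGraph Γ S).comps (univ.erase e) = 1 := by
    by_cases heS : e ∈ S
    · rw [Nug.erase_of_mem Γ hΓ S e heS]; omega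
    · rw [Nug.erase_of_not_mem Γ hΓ S e heS]; omega
  have h2 := Pool.Agent.H891R2.MT.T3a.mono (stateGraph Γ S) k ∅ (univ.erase e) (by
    rw [Finset.card_erase_of_mem (mem_univ e), Finset.card_univ, Fintype.card_fin]; omega)
    (empty_subset _)
  rw [Nug.comps_empty, h1, Finset.card_erase_of_mem (mem_univ e), Finset.card_univ, Fintype.card_fin,
    Finset.card_empty] at h2
  have hk : 0 < k := e.pos
  unfold betti
  have : (stateGraph Γ S).verts ≤ k := by omega
  have : ((stateGraph Γ S).verts : ℤ) ≤ k := by exact_mod_cast this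
  linarith

end Pool.Agent.R811.OneSide
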