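import Pool.Agent.R811.Cross.Glue
import Pool.Agent.R811.Cross.Closed
import Pool.Agent.H832R3.TW.E

set_option autoImplicit false

/-! Knotoid diagrams with a given shadow. -/

namespace Pool.Agent.R811.Cross

open Finset LaurentPolynomial Pool.Agent.H891R2.Jones Pool.Agent.H832R3.VJ Pool.Agent.TH561.PK
open Pool.Agent.H832R3.TW (IsKnotoid)

variable {n : ℕ} (G : Shadow n)

namespace Shadow

/-- The crossing `i` of an oriented interval whose `2 n + 1` edges are numbered `0, …, 2 n` from the tail to the
head: the strand from the edge `p i` to the edge `p i + 1` is the lower one, the strand from `q i` to `q i + 1` is the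
upper one. -/
def openCrossing (i : Fin n) : Crossing (Fin (2 * n + 1)) :=
  if G.left i then ⟨(G.p i).castSucc, (G.q i).castSucc, (G.p i).succ, (G.q i).succ, true, true⟩
  else ⟨(G.p i).castSucc, (G.q i).succ, (G.p i).succ, (G.q i).castSucc, true, false⟩

/-- the positive (`b = true`) or negative (`b = false`) crossing at the double point `i` -/
def openChoice (i : Fin n) (b : Bool) : Crossing (Fin (2 * n + 1)) :=
  if b then positive (G.openCrossing i) else negative (G.openCrossing i)

/-- the knotoid diagram with the shadow `G` in which the crossing `i` is positive if `s i = true` and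
negative if `s i = false` -/
def knotoid (s : Fin n → Bool) : Diagram (Fin (2 * n + 1)) :=
  ⟨[], (List.finRange n).map (fun i => G.openChoice i (s i))⟩

end Shadow

/-- the last edge is glued to the first one -/
def glue (hn : 0 < n) (e : Fin (2 * n + 1)) : Fin (2 * n) := ⟨e % (2 * n), Nat.mod_lt _ (by omega)⟩

theorem glue_castSucc (hn : 0 < n) (e : Fin (2 * n)) : glue hn e.castSucc = e := by
  apply Fin.ext
  show (e : ℕ) % (2 * n) = e
  exact Nat.mod_eq_of_lt e.2

theorem glue_succ (hn : 0 < n) (e : Fin (2 * n)) : glue hn e.succ = next e := rfl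

theorem map_choice (hn : 0 < n) (i : Fin n) (b : Bool) :
    (G.openChoice i b).map (glue hn) = G.choice i b := by
  unfold Shadow.openChoice Shadow.choice positive negative Shadow.openCrossing Shadow.crossing switch
    Crossing.sign Crossing.map
  cases G.left i <;> cases b <;> simp [glue_castSucc, glue_succ]

theorem sum_corners (c : Fin (2 * n + 1) → ZMod 2) (i : Fin n) (b : Bool) :
    c (G.openChoice i b).a + c (G.openChoice i b).b + c (G.openChoice i b).c + c (G.openChoice i b).d =
      (c (G.p i).castSucc + c (G.p i).succ) + (c (G.q i).castSucc + c (G.q i).succ) := by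
  unfold Shadow.openChoice positive negative Shadow.openCrossing switch Crossing.sign
  cases G.left i <;> cases b <;> simp <;> ring

theorem sum_bij (φ : Fin (2 * n) → ZMod 2) : ∑ i, (φ (G.p i) + φ (G.q i)) = ∑ e, φ e := by
  rw [Finset.sum_add_distrib, ← (Equiv.ofBijective _ G.bij).sum_comp, Fintype.sum_sum_type]
  rfl

theorem telescope (m : ℕ) (c : Fin (m + 1) → ZMod 2) :
    ∑ e : Fin m, (c e.castSucc + c e.succ) = c 0 + c (Fin.last m) := by
  induction m with
  | zero =>
    rw [Fin.sum_univ_zero]
    have : (Fin.last 0) = (0 : Fin 1) := rfl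
    rw [this]
    exact (CharTwo.add_self_eq_zero _).symm
  | succ m ih =>
    rw [Fin.sum_univ_castSucc]
    have h := ih (fun e => c e.castSucc)
    have e1 : ∑ e : Fin m, (c e.castSucc.castSucc + c e.castSucc.succ) =
        ∑ e : Fin m, (c e.castSucc.castSucc + c e.succ.castSucc) := rfl
    rw [e1, h]
    have e2 : (0 : Fin (m + 1)).castSucc = 0 := rfl
    have e3 : (Fin.last m).succ = Fin.last (m + 1) := rfl
    rw [e2, e3]
    have := CharTwo.add_self_eq_zero (c (Fin.last m).castSucc)
    linear_combination this

theorem twoEnds (s : Fin n → Bool) : TwoEnds 0 (Fin.last (2 * n)) [] (G.knotoid s).crossings := by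
  intro c
  unfold Shadow.knotoid
  simp only [List.map_nil, List.sum_nil, zero_add, List.map_map]
  have : ((List.finRange n).map ((fun x => c x.a + c x.b + c x.c + c x.d) ∘
      fun i => G.openChoice i (s i))).sum =
      ∑ i, ((c (G.p i).castSucc + c (G.p i).succ) + (c (G.q i).castSucc + c (G.q i).succ)) := by
    rw [← List.sum_ofFn, List.ofFn_eq_map]
    congr 1
    apply List.map_congr_left
    intro i _
    exact sum_corners G c i (s i)
  rw [this, sum_bij G (fun e => c e.castSucc + c e.succ), telescope]

/-- the normalised bracket of a knotoid diagram is the one of its closure -/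
theorem fPoly_knotoid (s : Fin n → Bool) : (G.knotoid s).fPoly = (G.diagram s).fPoly := by
  rcases Nat.eq_zero_or_pos n with h0 | hn
  · subst h0
    have e1 : G.knotoid s = ⟨[], []⟩ := rfl
    have e2 : G.diagram s = ⟨[], []⟩ := rfl
    rw [e1, e2]
    unfold Diagram.fPoly Diagram.bracket Diagram.writhe
    congr 1
    refine Finset.sum_congr rfl fun t _ => ?_
    congr 2
    unfold Diagram.loops
    have h1 : Nat.card (Quot (Diagram.Joined (⟨[], []⟩ : Diagram (Fin (2 * 0 + 1))) t)) ≤ 1 := by
      rw [Finite.card_le_one_iff_subsingleton]
      constructor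
      rintro ⟨a⟩ ⟨b⟩
      have hab : a = b := Fin.ext (by have := a.2; have := b.2; omega)
      rw [hab]
    have h2 : Nat.card (Quot (Diagram.Joined (⟨[], []⟩ : Diagram (Fin (2 * 0))) t)) = 0 := by
      rw [Nat.card_eq_zero]
      left
      constructor
      rintro ⟨a⟩
      exact a.elim0
    omega
  · have h := fPoly_glue (glue hn) Fin.castSucc (glue_castSucc hn) 0 (Fin.last (2 * n)) (by
      intro x
      rcases Fin.eq_castSucc_or_eq_last x with ⟨y, rfl⟩ | rfl
      · left; rw [glue_castSucc]
      · right
        refine ⟨rfl, ?_⟩
        apply Fin.ext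
        show (2 * n) % (2 * n) = 0
        exact Nat.mod_self _) _ _ (twoEnds G s)
    have e1 : (⟨[], (G.knotoid s).crossings⟩ : Diagram (Fin (2 * n + 1))) = G.knotoid s := rfl
    rw [e1] at h
    rw [h]
    unfold Shadow.knotoid Shadow.diagram
    simp only [List.map_nil, List.map_map]
    congr 2
    apply List.map_congr_left
    intro i _
    exact map_choice G hn i (s i)

theorem count_range {α : Type} [DecidableEq α] (φ : Fin (2 * n) → α) (hφ : Function.Injective φ) (e : α) :
    ((List.finRange n).map (fun k => φ (G.p k))).count e +
      ((List.finRange n).map (fun k => φ (G.q k))).count e = if ∃ f, φ f = e then 1 else 0 := by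
  split_ifs with h
  · rw [← List.count_append]
    apply List.count_eq_one_of_mem
    · apply List.Nodup.append
      · apply (List.nodup_finRange n).map
        intro a b hab
        by_contra hne
        exact p_ne G hne (hφ hab)
      · apply (List.nodup_finRange n).map
        intro a b hab
        by_contra hne
        exact q_ne G hne (hφ hab)
      · intro z h1 h2
        rw [List.mem_map] at h1 h2
        obtain ⟨a, _, ha⟩ := h1
        obtain ⟨b, _, hb⟩ := h2
        exact pq_ne G a b (hφ (by rw [ha, hb]))
    · obtain ⟨f, rfl⟩ := h
      obtain ⟨w, rfl⟩ := G.bij.2 f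
      rw [List.mem_append]
      rcases w with k | k
      · left; exact List.mem_map.2 ⟨k, List.mem_finRange k, rfl⟩
      · right; exact List.mem_map.2 ⟨k, List.mem_finRange k, rfl⟩
  · push Not at h
    rw [List.count_eq_zero_of_not_mem, List.count_eq_zero_of_not_mem]
    · intro hm
      obtain ⟨k, _, hk⟩ := List.mem_map.1 hm
      exact h _ hk
    · intro hm
      obtain ⟨k, _, hk⟩ := List.mem_map.1 hm
      exact h _ hk

theorem isKnotoid (hn : 0 < n) (s : Fin n → Bool) : IsKnotoid (G.knotoid s) := by
  refine ⟨0, Fin.last (2 * n), ?_, fun e => ⟨?_, ?_⟩⟩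
  · intro h
    have := congrArg Fin.val h
    simp at this
    omega
  · have h : (G.knotoid s).starts.count e =
        ((List.finRange n).map (fun k => if (G.openChoice k (s k)).underFwd then (G.openChoice k (s k)).a
          else (G.openChoice k (s k)).c)).count e +
        ((List.finRange n).map (fun k => if (G.openChoice k (s k)).overFwd then (G.openChoice k (s k)).b
          else (G.openChoice k (s k)).d)).count e := by
      unfold Diagram.starts Shadow.knotoid
      simp only [List.map_nil, List.nil_append, List.count_append, List.map_map]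
      rfl
    rw [h, count_swap (List.finRange n) _ _ (fun k => (G.p k).castSucc) (fun k => (G.q k).castSucc),
      count_range G Fin.castSucc (Fin.castSucc_injective _) e]
    · rcases Fin.eq_castSucc_or_eq_last e with ⟨y, rfl⟩ | rfl
      · rw [if_pos ⟨y, rfl⟩, if_neg (Fin.castSucc_ne_last y)]
      · rw [if_neg, if_pos rfl]
        rintro ⟨f, hf⟩
        exact Fin.castSucc_ne_last f hf
    · intro k
      unfold Shadow.openChoice positive negative Shadow.openCrossing switch Crossing.sign
      cases G.left k <;> cases s k <;> simp
  · have h : (G.knotoid s).ends.count e =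
        ((List.finRange n).map (fun k => if (G.openChoice k (s k)).underFwd then (G.openChoice k (s k)).c
          else (G.openChoice k (s k)).a)).count e +
        ((List.finRange n).map (fun k => if (G.openChoice k (s k)).overFwd then (G.openChoice k (s k)).d
          else (G.openChoice k (s k)).b)).count e := by
      unfold Diagram.ends Shadow.knotoid
      simp only [List.map_nil, List.nil_append, List.count_append, List.map_map]
      rfl
    rw [h, count_swap (List.finRange n) _ _ (fun k => (G.p k).succ) (fun k => (G.q k).succ),
      count_range G Fin.succ (Fin.succ_injective _) e]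
    · rcases Fin.eq_zero_or_eq_succ e with rfl | ⟨y, rfl⟩
      · rw [if_neg, if_pos rfl]
        rintro ⟨f, hf⟩
        exact Fin.succ_ne_zero f hf
      · rw [if_pos ⟨y, rfl⟩, if_neg (Fin.succ_ne_zero y)]
    · intro k
      unfold Shadow.openChoice positive negative Shadow.openCrossing switch Crossing.sign
      cases G.left k <;> cases s k <;> simp

theorem open_piece (s : Fin n → Bool) (e : Fin (2 * n)) :
    Piece (G.knotoid s) e.castSucc e.succ ∨ Piece (G.knotoid s) e.succ e.castSucc := by
  obtain ⟨w, rfl⟩ := G.bij.2 e
  have key : ∀ k, (Piece (G.knotoid s) (G.p k).castSucc (G.p k).succ ∨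
      Piece (G.knotoid s) (G.p k).succ (G.p k).castSucc) ∧
      (Piece (G.knotoid s) (G.q k).castSucc (G.q k).succ ∨
      Piece (G.knotoid s) (G.q k).succ (G.q k).castSucc) := by
    intro k
    have hm : G.openChoice k (s k) ∈ (G.knotoid s).crossings :=
      List.mem_map.2 ⟨k, List.mem_finRange k, rfl⟩
    have hp : ∀ a b, ((a = (G.openChoice k (s k)).a ∧ b = (G.openChoice k (s k)).c) ∨
        (a = (G.openChoice k (s k)).b ∧ b = (G.openChoice k (s k)).d)) → Piece (G.knotoid s) a b :=
      fun a b h => Or.inr ⟨_, hm, h⟩
    constructor
    · have : (((G.p k).castSucc = (G.openChoice k (s k)).a ∧ (G.p k).succ = (G.openChoice k (s k)).c) ∨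
          ((G.p k).castSucc = (G.openChoice k (s k)).b ∧ (G.p k).succ = (G.openChoice k (s k)).d)) ∨
          (((G.p k).succ = (G.openChoice k (s k)).a ∧ (G.p k).castSucc = (G.openChoice k (s k)).c) ∨
          ((G.p k).succ = (G.openChoice k (s k)).b ∧ (G.p k).castSucc = (G.openChoice k (s k)).d)) := by
        unfold Shadow.openChoice positive negative Shadow.openCrossing switch Crossing.sign
        cases G.left k <;> cases s k <;> simp
      exact this.imp (hp _ _) (hp _ _)
    · have : (((G.q k).castSucc = (G.openChoice k (s k)).a ∧ (G.q k).succ = (G.openChoice k (s k)).c) ∨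
          ((G.q k).castSucc = (G.openChoice k (s k)).b ∧ (G.q k).succ = (G.openChoice k (s k)).d)) ∨
          (((G.q k).succ = (G.openChoice k (s k)).a ∧ (G.q k).castSucc = (G.openChoice k (s k)).c) ∨
          ((G.q k).succ = (G.openChoice k (s k)).b ∧ (G.q k).castSucc = (G.openChoice k (s k)).d)) := by
        unfold Shadow.openChoice positive negative Shadow.openCrossing switch Crossing.sign
        cases G.left k <;> cases s k <;> simp
      exact this.imp (hp _ _) (hp _ _)
  rcases w with k | k
  · exact (key k).1
  · exact (key k).2

/-- all marked points of the knotoid diagram are on one curve -/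
theorem knotoid_one (s : Fin n → Bool) : IsKnot (G.knotoid s) := by
  have key : ∀ e : Fin (2 * n + 1), Relation.EqvGen (Piece (G.knotoid s)) 0 e := by
    intro e
    induction e using Fin.induction with
    | zero => exact Relation.EqvGen.refl _
    | succ e ih =>
      refine ih.trans _ _ _ ?_
      rcases open_piece G s e with h | h
      · exact Relation.EqvGen.rel _ _ h
      · exact Relation.EqvGen.symm _ _ (Relation.EqvGen.rel _ _ h)
  intro e f
  exact Relation.EqvGen.trans _ _ _ (Relation.EqvGen.symm _ _ (key e)) (key f)

end Pool.Agent.R811.Cross
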