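import Pool.Agent.R811.Cross.Defs
import Pool.Agent.H832R3.VJ.V7

set_option autoImplicit false

/-! Parity of the value of the bracket at `1`. -/

namespace Pool.Agent.R811.Cross

open Finset LaurentPolynomial Pool.Agent.H891R2.Jones Pool.Agent.H832R3.VJ
open Pool.Agent.H832R3.VJ.V7 (momH momH_apply moment_term)

/-- evaluation at `I` -/
noncomputable def evI : ℤ[T;T⁻¹] →+* ℂ :=
  LaurentPolynomial.eval₂ (Int.castRingHom ℂ) (Units.mk0 Complex.I Complex.I_ne_zero)

theorem evI_T (n : ℤ) : evI (T n) = Complex.I ^ n := by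
  unfold evI
  rw [LaurentPolynomial.eval₂_T]
  simp

theorem evI_C (a : ℤ) : evI (C a) = a := by
  unfold evI
  rw [LaurentPolynomial.eval₂_C]
  simp

theorem I_zpow (n : ℤ) : ∃ a b : ℤ, Complex.I ^ n = a + b * Complex.I ∧ Odd (a + b) := by
  have h4 : Complex.I ^ (4 : ℤ) = 1 := by
    have := Complex.I_pow_four
    exact_mod_cast this
  have hn : n = 4 * (n / 4) + n % 4 := by omega
  have e : Complex.I ^ n = Complex.I ^ (n % 4) := by
    conv_lhs => rw [hn]
    rw [zpow_add₀ Complex.I_ne_zero, zpow_mul, h4, one_zpow, one_mul]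
  rw [e]
  have h0 : 0 ≤ n % 4 := by omega
  have h1 : n % 4 < 4 := by omega
  generalize n % 4 = r at h0 h1
  interval_cases r
  · exact ⟨1, 0, by simp, by decide⟩
  · exact ⟨0, 1, by simp, by decide⟩
  · refine ⟨-1, 0, ?_, by decide⟩
    have : Complex.I ^ (2 : ℤ) = Complex.I ^ 2 := by norm_cast
    rw [this, Complex.I_sq]; simp
  · refine ⟨0, -1, ?_, by decide⟩
    have : Complex.I ^ (3 : ℤ) = Complex.I ^ 3 := by norm_cast
    rw [this, Complex.I_pow_three]; simp

theorem evI_parity (F : ℤ[T;T⁻¹]) :
    ∃ a b : ℤ, evI F = a + b * Complex.I ∧ Even (a + b - moment 0 F) := by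
  induction F using LaurentPolynomial.induction_on' with
  | add p q hp hq =>
    obtain ⟨a, b, h1, h2⟩ := hp
    obtain ⟨c, d, h3, h4⟩ := hq
    refine ⟨a + c, b + d, ?_, ?_⟩
    · rw [map_add, h1, h3]; push_cast; ring
    · rw [← momH_apply, map_add, momH_apply, momH_apply]
      have : a + c + (b + d) - (moment 0 p + moment 0 q) =
        (a + b - moment 0 p) + (c + d - moment 0 q) := by ring
      rw [this]
      exact h2.add h4
  | C_mul_T n x =>
    obtain ⟨a, b, h1, h2⟩ := I_zpow n
    refine ⟨x * a, x * b, ?_, ?_⟩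
    · rw [map_mul, evI_C, evI_T, h1]; push_cast; ring
    · rw [moment_term]
      have : x * a + x * b - x * n ^ 0 = x * (a + b - 1) := by ring
      rw [this]
      obtain ⟨k, hk⟩ := h2
      exact ⟨x * k, by rw [hk]; ring⟩

theorem odd_of_norm (F : ℤ[T;T⁻¹]) (h : ‖evI F‖ = 1) : Odd (moment 0 F) := by
  obtain ⟨a, b, h1, h2⟩ := evI_parity F
  have h3 : Complex.normSq (evI F) = 1 := by rw [Complex.normSq_eq_norm_sq, h]; norm_num
  rw [h1] at h3
  have h4 : (a : ℝ) * a + b * b = 1 := by
    rw [Complex.normSq_apply] at h3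
    simpa using h3
  have h5 : a * a + b * b = 1 := by exact_mod_cast h4
  have h6 : Odd (a + b) := by
    rcases Int.even_or_odd a with ha | ha <;> rcases Int.even_or_odd b with hb | hb
    · exfalso
      have : Even (a * a + b * b) := (ha.mul_left a).add (hb.mul_left b)
      rw [h5] at this
      exact absurd this (by decide)
    · exact ha.add_odd hb
    · exact ha.add_even hb
    · exfalso
      have : Even (a * a + b * b) := (ha.mul ha).add_odd (hb.mul hb)
      rw [h5] at this
      exact absurd this (by decide)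
  have h7 : moment 0 F = (a + b) - (a + b - moment 0 F) := by ring
  rw [h7]
  exact h6.sub_even h2

section cw

variable {P : Type}

theorem cw (col : P → Fin 2) (x : Crossing P) : crossW Complex.I col x =
    if col x.a ≠ col x.c ∧ col x.b ≠ col x.d then
      (if col x.a = col x.b then Complex.I else -Complex.I) else 0 := by
  unfold crossW ind
  generalize col x.a = a
  generalize col x.b = b
  generalize col x.c = c
  generalize col x.d = d
  rw [Complex.inv_I]
  fin_cases a <;> fin_cases b <;> fin_cases c <;> fin_cases d <;> simp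

theorem WW_comp {N : ℕ} (A : ℂ) (f : Fin N → Fin N) (hf : Function.Injective f)
    (arcs : List (P × P)) (cr : List (Crossing P)) (col : P → Fin N) :
    WW A arcs cr (f ∘ col) = WW A arcs cr col := by
  unfold WW
  have h1 : arcW (f ∘ col) = arcW col := by
    funext x
    unfold arcW
    exact ind_congr ⟨fun h => hf h, fun h => congrArg f h⟩
  have h2 : crossW A (f ∘ col) = crossW A col := by
    funext x
    unfold crossW
    congr 2
    · exact ind_congr ⟨fun h => ⟨hf h.1, hf h.2⟩, fun h => ⟨congrArg f h.1, congrArg f h.2⟩⟩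
    · exact ind_congr ⟨fun h => ⟨hf h.1, hf h.2⟩, fun h => ⟨congrArg f h.1, congrArg f h.2⟩⟩
  rw [h1, h2]

/-- the colouring fits to a diagram: it changes at the crossings only -/
def Fits (col : P → Fin 2) (arcs : List (P × P)) (cr : List (Crossing P)) : Prop :=
  (∀ x ∈ arcs, col x.1 = col x.2) ∧ ∀ x ∈ cr, col x.a ≠ col x.c ∧ col x.b ≠ col x.d

theorem WW_zero (col : P → Fin 2) (arcs : List (P × P)) (cr : List (Crossing P))
    (h : ¬ Fits col arcs cr) : WW Complex.I arcs cr col = 0 := by
  unfold Fits at h
  rw [not_and_or] at h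
  unfold WW
  rcases h with h | h
  · push Not at h
    obtain ⟨x, hx, hne⟩ := h
    have : (arcs.map (arcW col)).prod = 0 := by
      apply List.prod_eq_zero
      rw [List.mem_map]
      exact ⟨x, hx, by unfold arcW; exact ind_neg hne⟩
    rw [this, zero_mul]
  · rw [not_forall] at h
    obtain ⟨x, h⟩ := h
    rw [Classical.not_imp] at h
    obtain ⟨hx, hne⟩ := h
    have : (cr.map (crossW Complex.I col)).prod = 0 := by
      apply List.prod_eq_zero
      rw [List.mem_map]
      exact ⟨x, hx, by rw [cw, if_neg hne]⟩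
    rw [this, mul_zero]

theorem WW_norm (col : P → Fin 2) (arcs : List (P × P)) (cr : List (Crossing P))
    (h : Fits col arcs cr) : ‖WW Complex.I arcs cr col‖ = 1 := by
  unfold WW
  have h1 : (arcs.map (arcW col)).prod = 1 := by
    rw [arcs_prod]
    exact ind_pos h.1
  rw [h1, one_mul]
  have h2 := h.2
  clear h h1
  induction cr with
  | nil => simp
  | cons x l ih =>
    rw [List.map_cons, List.prod_cons, norm_mul, ih (fun y hy => h2 y (List.mem_cons_of_mem _ hy)),
      mul_one, cw, if_pos (h2 x List.mem_cons_self)]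
    split_ifs <;> simp

end cw

theorem evI_bracket {P : Type} [Fintype P] [DecidableEq P] [Nonempty P] (D : Diagram P) :
    ∑ col : P → Fin 2, WW Complex.I D.arcs D.crossings col = 2 * evI D.bracket := by
  rw [sum_colourings Complex.I_ne_zero D]
  unfold Diagram.bracket
  rw [map_sum, Finset.mul_sum]
  refine Finset.sum_congr rfl fun s _ => ?_
  rw [map_mul, map_pow, evI_T, map_sub, map_neg, evI_T, evI_T]
  have e : -Complex.I ^ (2 : ℤ) - Complex.I ^ (-2 : ℤ) = 2 := by
    have h2 : Complex.I ^ (2 : ℤ) = -1 := by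
      have : Complex.I ^ (2 : ℤ) = Complex.I ^ 2 := by norm_cast
      rw [this, Complex.I_sq]
    rw [zpow_neg, h2]; norm_num
  rw [e]
  have hl : 0 < D.loops s := by
    unfold Diagram.loops
    have : Finite (Quot (D.Joined s)) := Quot.finite _
    have : Nonempty (Quot (D.Joined s)) := ⟨Quot.mk _ (Classical.arbitrary P)⟩
    exact Nat.card_pos
  obtain ⟨m, hm⟩ := Nat.exists_eq_succ_of_ne_zero hl.ne'
  rw [hm, Nat.succ_sub_one, Nat.succ_eq_add_one, pow_succ]
  push_cast
  ring

/-- the value at `1` of the bracket of a diagram with exactly two fitting colourings is odd -/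
theorem odd_bracket {P : Type} [Fintype P] [DecidableEq P] [Nonempty P] (D : Diagram P)
    (c0 : P → Fin 2) (h0 : Fits c0 D.arcs D.crossings)
    (h1 : ∀ c, Fits c D.arcs D.crossings → c = c0 ∨ c = (fun x => 1 - x) ∘ c0) :
    Odd (moment 0 D.bracket) := by
  apply odd_of_norm
  have hinj : Function.Injective (fun x : Fin 2 => 1 - x) := by decide
  have hne : c0 ≠ (fun x => 1 - x) ∘ c0 := by
    intro h
    have := congrFun h (Classical.arbitrary P)
    simp only [Function.comp_apply] at this
    revert this
    generalize c0 (Classical.arbitrary P) = z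
    revert z
    decide
  have e : ∑ col : P → Fin 2, WW Complex.I D.arcs D.crossings col =
      2 * WW Complex.I D.arcs D.crossings c0 := by
    rw [← Finset.sum_subset (Finset.subset_univ {c0, (fun x => 1 - x) ∘ c0})]
    · rw [Finset.sum_pair hne, WW_comp Complex.I _ hinj]
      ring
    · intro c _ hc
      apply WW_zero
      intro hf
      apply hc
      rcases h1 c hf with h | h
      · rw [h]; exact Finset.mem_insert_self _ _
      · rw [h]; exact Finset.mem_insert_of_mem (Finset.mem_singleton_self _)
  rw [evI_bracket] at e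
  have e2 : evI D.bracket = WW Complex.I D.arcs D.crossings c0 :=
    mul_left_cancel₀ (by norm_num) e
  rw [e2]
  exact WW_norm c0 _ _ h0

end Pool.Agent.R811.Cross
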