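import Pool.Agent.R811.Cross.Col
import Pool.Agent.R811.Cross.Comb
import Pool.Agent.H832R3.VJ.V8
import Pool.Agent.H953R3.Q2.Mom

set_option autoImplicit false

/-! Skein relations for one and two crossings. -/

namespace Pool.Agent.R811.Cross

open Finset LaurentPolynomial Pool.Agent.H891R2.Jones Pool.Agent.H832R3.VJ
open Pool.Agent.H953R3.Q2 (T_mul0 T_mul1 T_mul2 mul0 mul1 mul2)

theorem switch_sign {P : Type} (x : Crossing P) : (switch x).sign = -x.sign := by
  unfold switch Crossing.sign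
  cases x.overFwd <;> cases x.underFwd <;> simp

theorem alg1 (GA GB : ℤ[T;T⁻¹]) :
    T 4 * (-T (-3) * (T 1 * GA + T (-1) * GB)) - T (-4) * (-T 3 * (T 1 * GB + T (-1) * GA)) =
      (T (-2) - T 2) * GA := by
  have e : T 4 * (-T (-3) * (T 1 * GA + T (-1) * GB)) - T (-4) * (-T 3 * (T 1 * GB + T (-1) * GA)) =
      (T (-4) * T 3 * T (-1) - T 4 * T (-3) * T 1) * GA +
      (T (-4) * T 3 * T 1 - T 4 * T (-3) * T (-1)) * GB := by ring
  rw [e]
  simp only [← T_add]
  norm_num

theorem skein {P : Type} (arcs : List (P × P)) (x : Crossing P) (cr : List (Crossing P)) :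
    T 4 * (⟨arcs, positive x :: cr⟩ : Diagram P).fPoly -
      T (-4) * (⟨arcs, negative x :: cr⟩ : Diagram P).fPoly =
    (T (-2) - T 2) * (⟨((positive x).a, (positive x).b) :: ((positive x).c, (positive x).d) :: arcs,
      cr⟩ : Diagram P).fPoly := by
  rw [V6b.fPoly_cons arcs (positive x) cr, V6b.fPoly_cons arcs (negative x) cr]
  rcases V6b.sign_cases x with hs | hs
  · have hp : positive x = x := by unfold positive; rw [if_pos hs]
    have hn : negative x = switch x := by unfold negative; rw [if_pos hs]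
    rw [hp, hn, switch_sign, hs]
    have e1 : (⟨((switch x).a, (switch x).b) :: ((switch x).c, (switch x).d) :: arcs, cr⟩ :
        Diagram P).fPoly = (⟨(x.b, x.c) :: (x.d, x.a) :: arcs, cr⟩ : Diagram P).fPoly := rfl
    have e2 : (⟨((switch x).b, (switch x).c) :: ((switch x).d, (switch x).a) :: arcs, cr⟩ :
        Diagram P).fPoly = (⟨(x.a, x.b) :: (x.c, x.d) :: arcs, cr⟩ : Diagram P).fPoly := by
      apply V6b.fPoly_congr
      · intro p q
        show ((p, q) ∈ (x.c, x.d) :: (x.a, x.b) :: arcs ∨ (q, p) ∈ (x.c, x.d) :: (x.a, x.b) :: arcs) ↔ _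
        simp only [List.mem_cons]
        tauto
      · exact List.Perm.refl _
    rw [e1, e2]
    have h3 : (-3 * 1 : ℤ) = -3 := by norm_num
    have h4 : (-3 * -1 : ℤ) = 3 := by norm_num
    rw [h3, h4]
    exact alg1 _ _
  · have h1 : ¬ x.sign = 1 := by rw [hs]; decide
    have hp : positive x = switch x := by unfold positive; rw [if_neg h1]
    have hn : negative x = x := by unfold negative; rw [if_neg h1]
    rw [hp, hn, switch_sign, hs]
    have e1 : (⟨((switch x).a, (switch x).b) :: ((switch x).c, (switch x).d) :: arcs, cr⟩ :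
        Diagram P).fPoly = (⟨(x.b, x.c) :: (x.d, x.a) :: arcs, cr⟩ : Diagram P).fPoly := rfl
    have e2 : (⟨((switch x).b, (switch x).c) :: ((switch x).d, (switch x).a) :: arcs, cr⟩ :
        Diagram P).fPoly = (⟨(x.a, x.b) :: (x.c, x.d) :: arcs, cr⟩ : Diagram P).fPoly := by
      apply V6b.fPoly_congr
      · intro p q
        show ((p, q) ∈ (x.c, x.d) :: (x.a, x.b) :: arcs ∨ (q, p) ∈ (x.c, x.d) :: (x.a, x.b) :: arcs) ↔ _
        simp only [List.mem_cons]
        tauto
      · exact List.Perm.refl _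
    rw [e1, e2]
    have h3 : (-3 * - -1 : ℤ) = -3 := by norm_num
    have h4 : (-3 * -1 : ℤ) = 3 := by norm_num
    rw [h3, h4]
    exact alg1 _ _

/-- the arcs which replace a crossing when it is smoothed according to the directions -/
def sm {P : Type} (x : Crossing P) : List (P × P) :=
  [((positive x).a, (positive x).b), ((positive x).c, (positive x).d)]

theorem skein2 {P : Type} (arcs : List (P × P)) (x y : Crossing P) (cr : List (Crossing P)) :
    T 8 * (⟨arcs, positive x :: positive y :: cr⟩ : Diagram P).fPoly -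
      (⟨arcs, positive x :: negative y :: cr⟩ : Diagram P).fPoly -
      (⟨arcs, negative x :: positive y :: cr⟩ : Diagram P).fPoly +
      T (-8) * (⟨arcs, negative x :: negative y :: cr⟩ : Diagram P).fPoly =
    (T (-2) - T 2) ^ 2 * (⟨sm y ++ (sm x ++ arcs), cr⟩ : Diagram P).fPoly := by
  have h1 := skein arcs x (positive y :: cr)
  have h2 := skein arcs x (negative y :: cr)
  have h3 := skein (sm x ++ arcs) y cr
  have t8 : (T 8 : ℤ[T;T⁻¹]) = T 4 * T 4 := by rw [← T_add]; norm_num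
  have t8' : (T (-8) : ℤ[T;T⁻¹]) = T (-4) * T (-4) := by rw [← T_add]; norm_num
  have t0 : (T 4 * T (-4) : ℤ[T;T⁻¹]) = 1 := by rw [← T_add]; norm_num
  have e1 : (⟨((positive x).a, (positive x).b) :: ((positive x).c, (positive x).d) :: arcs,
      positive y :: cr⟩ : Diagram P).fPoly = (⟨sm x ++ arcs, positive y :: cr⟩ : Diagram P).fPoly := rfl
  have e2 : (⟨((positive x).a, (positive x).b) :: ((positive x).c, (positive x).d) :: arcs,
      negative y :: cr⟩ : Diagram P).fPoly = (⟨sm x ++ arcs, negative y :: cr⟩ : Diagram P).fPoly := rfl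
  have e3 : (⟨((positive y).a, (positive y).b) :: ((positive y).c, (positive y).d) :: (sm x ++ arcs),
      cr⟩ : Diagram P).fPoly = (⟨sm y ++ (sm x ++ arcs), cr⟩ : Diagram P).fPoly := rfl
  rw [e1] at h1
  rw [e2] at h2
  rw [e3] at h3
  rw [t8, t8']
  linear_combination T 4 * h1 - T (-4) * h2 + (T (-2) - T 2) * h3 +
    ((⟨arcs, positive x :: negative y :: cr⟩ : Diagram P).fPoly +
      (⟨arcs, negative x :: positive y :: cr⟩ : Diagram P).fPoly) * t0

theorem m_sub (j : ℕ) (F G : ℤ[T;T⁻¹]) : moment j (F - G) = moment j F - moment j G :=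
  moment_sub j F G

theorem m_T (j : ℕ) (n : ℤ) : moment j (T n : ℤ[T;T⁻¹]) = n ^ j := by
  have := V7.moment_term j n 1
  rw [map_one, one_mul, one_mul] at this
  exact this

/-- the first moments of a skein pair -/
theorem skein_m1 {P : Type} (arcs : List (P × P)) (x : Crossing P) (cr : List (Crossing P)) :
    (4 : ℤ) ∣ moment 1 (⟨arcs, positive x :: cr⟩ : Diagram P).fPoly -
      moment 1 (⟨arcs, negative x :: cr⟩ : Diagram P).fPoly := by
  have h := congrArg (moment 1) (skein arcs x cr)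
  rw [m_sub, T_mul1, T_mul1, mul1, m_sub, m_sub, m_T, m_T, m_T, m_T] at h
  refine ⟨-moment 0 (⟨arcs, positive x :: cr⟩ : Diagram P).fPoly -
      moment 0 (⟨arcs, negative x :: cr⟩ : Diagram P).fPoly -
      moment 0 (⟨((positive x).a, (positive x).b) :: ((positive x).c, (positive x).d) :: arcs,
        cr⟩ : Diagram P).fPoly, ?_⟩
  linarith

/-- the mixed difference of the second moments -/
theorem skein2_m2 {P : Type} (arcs : List (P × P)) (x y : Crossing P) (cr : List (Crossing P))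
    (h : Odd (moment 0 (⟨sm y ++ (sm x ++ arcs), cr⟩ : Diagram P).fPoly)) :
    moment 2 (⟨arcs, positive x :: positive y :: cr⟩ : Diagram P).fPoly -
      moment 2 (⟨arcs, positive x :: negative y :: cr⟩ : Diagram P).fPoly -
      moment 2 (⟨arcs, negative x :: positive y :: cr⟩ : Diagram P).fPoly +
      moment 2 (⟨arcs, negative x :: negative y :: cr⟩ : Diagram P).fPoly ≠ 0 := by
  have h0 := congrArg (moment 2) (skein2 arcs x y cr)
  have h1 := skein_m1 arcs x (positive y :: cr)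
  have h2 : (4 : ℤ) ∣ moment 1 (⟨arcs, negative x :: positive y :: cr⟩ : Diagram P).fPoly -
      moment 1 (⟨arcs, negative x :: negative y :: cr⟩ : Diagram P).fPoly := by
    have e1 : (⟨arcs, negative x :: positive y :: cr⟩ : Diagram P).fPoly =
        (⟨arcs, positive y :: negative x :: cr⟩ : Diagram P).fPoly :=
      V6b.fPoly_congr _ _ _ _ (fun _ _ => Iff.rfl) (List.Perm.swap _ _ _)
    have e2 : (⟨arcs, negative x :: negative y :: cr⟩ : Diagram P).fPoly =
        (⟨arcs, negative y :: negative x :: cr⟩ : Diagram P).fPoly :=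
      V6b.fPoly_congr _ _ _ _ (fun _ _ => Iff.rfl) (List.Perm.swap _ _ _)
    rw [e1, e2]
    exact skein_m1 arcs y (negative x :: cr)
  rw [moment_add, m_sub, m_sub, T_mul2, T_mul2, mul2] at h0
  have z0 : moment 0 ((T (-2) - T 2 : ℤ[T;T⁻¹]) ^ 2) = 0 := by
    rw [pow_two, mul0, m_sub, m_T, m_T]; norm_num
  have z1 : moment 1 ((T (-2) - T 2 : ℤ[T;T⁻¹]) ^ 2) = 0 := by
    rw [pow_two, mul1, m_sub, m_sub, m_T, m_T, m_T, m_T]; norm_num
  have z2 : moment 2 ((T (-2) - T 2 : ℤ[T;T⁻¹]) ^ 2) = 32 := by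
    rw [pow_two, mul2, m_sub, m_sub, m_sub, m_T, m_T, m_T, m_T, m_T, m_T]; norm_num
  rw [z0, z1, z2] at h0
  obtain ⟨k1, hk1⟩ := h1
  obtain ⟨k2, hk2⟩ := h2
  obtain ⟨k3, hk3⟩ := h
  rw [hk3] at h0
  intro hz
  omega

/-- reduction modulo `2` -/
noncomputable def phi : ℤ[T;T⁻¹] →+* (ZMod 2)[T;T⁻¹] :=
  LaurentPolynomial.eval₂ ((C : ZMod 2 →+* (ZMod 2)[T;T⁻¹]).comp (Int.castRingHom (ZMod 2)))
    (⟨T 1, T (-1), by rw [← T_add]; simp, by rw [← T_add]; simp⟩ : ((ZMod 2)[T;T⁻¹])ˣ)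

theorem phi_T (n : ℤ) : phi (T n) = T n := by
  unfold phi
  rw [LaurentPolynomial.eval₂_T]
  induction n using Int.induction_on with
  | zero => simp
  | succ n ih =>
    rw [zpow_add, zpow_one, Units.val_mul, ih]
    exact (T_add _ _).symm
  | pred n ih =>
    rw [zpow_sub, zpow_one, Units.val_mul, ih]
    show T (-(n : ℤ)) * T (-1) = T (-(n : ℤ) - 1)
    rw [← T_add, sub_eq_add_neg]

theorem phi_C (a : ℤ) : phi (C a) = C (a : ZMod 2) := by
  unfold phi
  rw [LaurentPolynomial.eval₂_C]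
  simp

theorem phi_two : phi 2 = 0 := by
  have h : (2 : ℤ[T;T⁻¹]) = C 2 := by rw [map_ofNat]
  rw [h, phi_C]
  have : ((2 : ℤ) : ZMod 2) = 0 := rfl
  rw [this, map_zero]

/-- the value at `1` -/
noncomputable def psi : (ZMod 2)[T;T⁻¹] →+* ZMod 2 :=
  LaurentPolynomial.eval₂ (RingHom.id (ZMod 2)) 1

theorem psi_T (n : ℤ) : psi (T n) = 1 := by
  unfold psi
  rw [LaurentPolynomial.eval₂_T]
  simp

theorem psi_phi (F : ℤ[T;T⁻¹]) : psi (phi F) = (moment 0 F : ℤ) := by
  induction F using LaurentPolynomial.induction_on' with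
  | add p q hp hq => rw [map_add, map_add, hp, hq, moment_add]; push_cast; rfl
  | C_mul_T n a =>
    rw [map_mul, map_mul, phi_T, psi_T, phi_C, V7.moment_term]
    unfold psi
    rw [LaurentPolynomial.eval₂_C]
    simp

theorem phi_eq {F g : ℤ[T;T⁻¹]} (h : (2 : ℤ[T;T⁻¹]) ∣ F - g) : phi F = phi g := by
  obtain ⟨u, hu⟩ := h
  rw [sub_eq_iff_eq_add] at hu
  rw [hu, map_add, map_mul, phi_two, zero_mul, zero_add]

theorem T_ne : (T (-2) - T 2 : (ZMod 2)[T;T⁻¹]) ≠ 0 := by
  intro h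
  rw [sub_eq_zero] at h
  have h1 : (T (-2) : (ZMod 2)[T;T⁻¹]).coeff 2 = (T 2 : (ZMod 2)[T;T⁻¹]).coeff 2 := by rw [h]
  unfold LaurentPolynomial.T at h1
  rw [AddMonoidAlgebra.coeff_single, AddMonoidAlgebra.coeff_single, Finsupp.single_apply,
    Finsupp.single_apply, if_neg (by norm_num), if_pos rfl] at h1
  exact absurd h1 (by decide)

/-- If the four polynomials agree modulo `2`, then the smoothed diagram has an even value at `1`. -/
theorem skein2_mod {P : Type} (arcs : List (P × P)) (x y : Crossing P) (cr : List (Crossing P))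
    (g : ℤ[T;T⁻¹])
    (h1 : (2 : ℤ[T;T⁻¹]) ∣ (⟨arcs, positive x :: positive y :: cr⟩ : Diagram P).fPoly - g)
    (h2 : (2 : ℤ[T;T⁻¹]) ∣ (⟨arcs, positive x :: negative y :: cr⟩ : Diagram P).fPoly - g)
    (h3 : (2 : ℤ[T;T⁻¹]) ∣ (⟨arcs, negative x :: positive y :: cr⟩ : Diagram P).fPoly - g)
    (h4 : (2 : ℤ[T;T⁻¹]) ∣ (⟨arcs, negative x :: negative y :: cr⟩ : Diagram P).fPoly - g) :
    Even (moment 0 (⟨sm y ++ (sm x ++ arcs), cr⟩ : Diagram P).fPoly) := by
  have h5 := congrArg phi (skein2 arcs x y cr)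
  rw [map_add, map_sub, map_sub, map_mul, map_mul, phi_eq h1, phi_eq h2, phi_eq h3, phi_eq h4,
    map_mul, map_pow, map_sub, phi_T, phi_T, phi_T, phi_T] at h5
  set f := phi (⟨sm y ++ (sm x ++ arcs), cr⟩ : Diagram P).fPoly with hf
  have h6 : (T 8 * phi g - phi g - phi g + T (-8) * phi g : (ZMod 2)[T;T⁻¹]) =
      (T (-2) - T 2) ^ 2 * ((T 2 + T (-2)) ^ 2 * phi g) := by
    have a1 : (T 8 : (ZMod 2)[T;T⁻¹]) = T 2 * T 2 * (T 2 * T 2) := by
      rw [← T_add, ← T_add]; norm_num
    have a2 : (T (-8) : (ZMod 2)[T;T⁻¹]) = T (-2) * T (-2) * (T (-2) * T (-2)) := by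
      rw [← T_add, ← T_add]; norm_num
    have a3 : (T 2 * T (-2) : (ZMod 2)[T;T⁻¹]) = 1 := by rw [← T_add]; norm_num
    rw [a1, a2]
    linear_combination (2 * phi g * (T 2 * T (-2) + 1)) * a3
  rw [h6] at h5
  have h7 := mul_left_cancel₀ (pow_ne_zero 2 T_ne) h5
  have h8 := congrArg psi h7
  rw [map_mul, map_pow, map_add, psi_T, psi_T, hf] at h8
  have h9 : ((1 : ZMod 2) + 1) ^ 2 = 0 := by decide
  rw [h9, zero_mul] at h8
  have h10 : ((moment 0 (⟨sm y ++ (sm x ++ arcs), cr⟩ : Diagram P).fPoly : ℤ) : ZMod 2) = 0 := by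
    rw [← psi_phi]; exact h8.symm
  rw [ZMod.intCast_zmod_eq_zero_iff_dvd] at h10
  exact even_iff_two_dvd.2 (by exact_mod_cast h10)

end Pool.Agent.R811.Cross
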